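import Mathlib

/-!
Either only finitely many Fermat numbers are prime, or every other normalised generalised
Fermat sequence `(a ^ 2 ^ m + b ^ 2 ^ m) / gcd (2, a + b)` has infinitely many composite terms.
-/

namespace Pool.Agent.Results.MP_37e5fa_nt.GFDichotomy

lemma sq_one_cases {z : ℤ} (h : z ^ 2 = 1) : z = 1 ∨ z = -1 := by
  have h1 : (z - 1) * (z + 1) = 0 := by linear_combination h
  rcases mul_eq_zero.mp h1 with h2 | h2
  · left; linarith
  · right; linarith

/-- A Fermat prime `p = T ^ 2 + 1` dividing `X ^ 2 + Y ^ 2 = g p` with `g ≤ 2`. -/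
lemma rep_unique (T X Y g : ℤ) (hT : 1 < T) (hp : Prime (T ^ 2 + 1)) (hX : 0 < X) (hY : 0 < Y)
    (hXY : Y < X) (hg : g = 1 ∨ g = 2) (h : X ^ 2 + Y ^ 2 = g * (T ^ 2 + 1)) :
    (g = 1 ∧ Y = 1 ∧ X = T) ∨ (g = 2 ∧ Y = T - 1) := by
  have hdvd : (T ^ 2 + 1) ∣ (X - T * Y) * (X + T * Y) := by
    refine ⟨g - Y ^ 2, ?_⟩
    linear_combination h
  have hprod : (X + T * Y) ^ 2 + (T * X - Y) ^ 2 = g * (T ^ 2 + 1) ^ 2 := by
    linear_combination (T ^ 2 + 1) * h
  have hprod2 : (X - T * Y) ^ 2 + (T * X + Y) ^ 2 = g * (T ^ 2 + 1) ^ 2 := by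
    linear_combination (T ^ 2 + 1) * h
  have hpos : 0 < T ^ 2 + 1 := by positivity
  have hTXY : 0 < T * X - Y := by nlinarith
  have hg2 : g ≤ 2 := by omega
  rcases hp.dvd_or_dvd hdvd with ⟨c, hc⟩ | ⟨c, hc⟩
  · -- X = T Y
    have hc2 : c ^ 2 < 2 := by
      have h1 : (T ^ 2 + 1) ^ 2 * c ^ 2 < 2 * (T ^ 2 + 1) ^ 2 := by
        have : 0 < (T * X + Y) ^ 2 := by positivity
        rw [hc] at hprod2
        nlinarith [sq_nonneg (T ^ 2 + 1)]
      by_contra hcon
      push Not at hcon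
      nlinarith [sq_nonneg (T ^ 2 + 1), pow_pos hpos 2]
    have hc3 : c = 0 ∨ c = 1 ∨ c = -1 := by
      have : c < 2 := by nlinarith
      have : -2 < c := by nlinarith
      omega
    rcases hc3 with rfl | rfl | rfl
    · have hXT : X = T * Y := by linarith
      have hY2 : Y ^ 2 * (T ^ 2 + 1) = g * (T ^ 2 + 1) := by rw [← h, hXT]; ring
      have hY3 : Y ^ 2 = g := mul_right_cancel₀ hpos.ne' hY2
      rcases hg with rfl | rfl
      · left
        have : Y = 1 := by nlinarith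
        subst this
        exact ⟨rfl, rfl, by linarith⟩
      · exfalso
        have : Y < 2 := by nlinarith
        have : Y = 1 := by omega
        subst this
        norm_num at hY3
    · exfalso
      -- X - T Y = T^2 + 1, so X > T^2, X^2 > ...
      have : X = T ^ 2 + 1 + T * Y := by linarith
      nlinarith [mul_pos (show (0:ℤ) < T by linarith) hY]
    · -- X - T Y = -(T^2+1)
      have hXe : X = T * Y - (T ^ 2 + 1) := by linarith
      have h4 : (T ^ 2 + 1) * ((Y - T) ^ 2 + 1 - g) = 0 := by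
        have := h
        rw [hXe] at this
        linear_combination this
      have h5 : (Y - T) ^ 2 + 1 - g = 0 := by
        rcases mul_eq_zero.mp h4 with h6 | h6
        · omega
        · exact h6
      rcases hg with rfl | rfl
      · exfalso
        have : Y - T = 0 := by
          have : (Y - T) ^ 2 = 0 := by linarith
          exact pow_eq_zero_iff (two_ne_zero) |>.mp this
        have hYT : Y = T := by linarith
        subst hYT
        nlinarith
      · exfalso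
        have h7 : (Y - T) ^ 2 = 1 := by linarith
        have h8 : Y - T = 1 ∨ Y - T = -1 := sq_one_cases h7
        rcases h8 with h8 | h8
        · have hYT : Y = T + 1 := by linarith
          subst hYT
          nlinarith
        · have hYT : Y = T - 1 := by linarith
          subst hYT
          nlinarith
  · have hc2 : c ^ 2 < 2 := by
      have h1 : (T ^ 2 + 1) ^ 2 * c ^ 2 < 2 * (T ^ 2 + 1) ^ 2 := by
        have : 0 < (T * X - Y) ^ 2 := by positivity
        rw [hc] at hprod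
        nlinarith [sq_nonneg (T ^ 2 + 1)]
      by_contra hcon
      push Not at hcon
      nlinarith [sq_nonneg (T ^ 2 + 1), pow_pos hpos 2]
    have hcpos : 0 < c := by
      by_contra hcon
      push Not at hcon
      have : 0 < X + T * Y := by positivity
      nlinarith
    have hc1 : c = 1 := by
      have : c < 2 := by nlinarith
      omega
    subst hc1
    have hXe : X = (T ^ 2 + 1) - T * Y := by linarith
    have h4 : (T ^ 2 + 1) * ((Y - T) ^ 2 + 1 - g) = 0 := by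
      have := h
      rw [hXe] at this
      linear_combination this
    have h5 : (Y - T) ^ 2 + 1 - g = 0 := by
      rcases mul_eq_zero.mp h4 with h6 | h6
      · omega
      · exact h6
    rcases hg with rfl | rfl
    · exfalso
      have : Y - T = 0 := by
        have : (Y - T) ^ 2 = 0 := by linarith
        exact pow_eq_zero_iff (two_ne_zero) |>.mp this
      have hYT : Y = T := by linarith
      subst hYT
      nlinarith
    · right
      refine ⟨rfl, ?_⟩
      have h7 : (Y - T) ^ 2 = 1 := by linarith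
      have h8 : Y - T = 1 ∨ Y - T = -1 := sq_one_cases h7
      rcases h8 with h8 | h8
      · exfalso
        have hYT : Y = T + 1 := by linarith
        subst hYT
        nlinarith
      · linarith

/-- If `p = F_k` is a Fermat prime exceeding `a ^ 2 ^ M`, then `p` divides `a ^ 2 ^ m + b ^ 2 ^ m`
for some `m ≥ M`. -/
lemma exists_dvd (a b k M : ℕ) (hb : 1 ≤ b) (hab : b < a) (hp : (2 ^ 2 ^ k + 1).Prime)
    (hlarge : a ^ 2 ^ M < 2 ^ 2 ^ k + 1) :
    ∃ m, M ≤ m ∧ (2 ^ 2 ^ k + 1) ∣ a ^ 2 ^ m + b ^ 2 ^ m := by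
  set p := 2 ^ 2 ^ k + 1 with hpdef
  have : Fact p.Prime := ⟨hp⟩
  have hap : a < p := lt_of_le_of_lt (Nat.le_self_pow (by positivity) a) hlarge
  have hbp : b < p := lt_trans hab hap
  have hb0 : (b : ZMod p) ≠ 0 := by
    intro h
    rw [ZMod.natCast_eq_zero_iff] at h
    exact absurd (Nat.le_of_dvd (by omega) h) (by omega)
  have ha0 : (a : ZMod p) ≠ 0 := by
    intro h
    rw [ZMod.natCast_eq_zero_iff] at h
    exact absurd (Nat.le_of_dvd (by omega) h) (by omega)
  have hodd : p ≠ 2 := by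
    rw [hpdef]
    have : 1 < 2 ^ 2 ^ k := Nat.one_lt_two_pow (by positivity)
    omega
  set x : ZMod p := a / b with hx
  have hx0 : x ≠ 0 := div_ne_zero ha0 hb0
  have hxpow : x ^ 2 ^ (2 ^ k) = 1 := by
    have := ZMod.pow_card_sub_one_eq_one hx0
    simpa [hpdef] using this
  -- least exponent
  have hex : ∃ s, x ^ 2 ^ s = 1 := ⟨_, hxpow⟩
  classical
  set s := Nat.find hex with hs
  have hs1 : x ^ 2 ^ s = 1 := Nat.find_spec hex
  have hxM : x ^ 2 ^ M ≠ 1 := by
    intro h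
    rw [hx, div_pow, div_eq_one_iff_eq (pow_ne_zero _ hb0)] at h
    have h2 : ((a ^ 2 ^ M : ℕ) : ZMod p) = ((b ^ 2 ^ M : ℕ) : ZMod p) := by
      push_cast
      exact h
    rw [ZMod.natCast_eq_natCast_iff] at h2
    have h3 : b ^ 2 ^ M < a ^ 2 ^ M := Nat.pow_lt_pow_left hab (by positivity)
    have h4 := Nat.ModEq.eq_of_lt_of_lt h2 hlarge (h3.trans hlarge)
    omega
  have hsM : M < s := by
    by_contra hcon
    push Not at hcon
    apply hxM
    obtain ⟨d, rfl⟩ := Nat.exists_eq_add_of_le hcon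
    rw [pow_add, pow_mul, hs1, one_pow]
  refine ⟨s - 1, by omega, ?_⟩
  have hm1 : x ^ 2 ^ (s - 1) ≠ 1 := Nat.find_min hex (show s - 1 < s by omega)
  have hm2 : (x ^ 2 ^ (s - 1)) ^ 2 = 1 := by
    rw [← pow_mul, ← pow_succ, Nat.sub_add_cancel (by omega), hs1]
  have hm3 : x ^ 2 ^ (s - 1) = -1 := by
    have h1 : (x ^ 2 ^ (s - 1) - 1) * (x ^ 2 ^ (s - 1) + 1) = 0 := by
      linear_combination hm2
    rcases mul_eq_zero.mp h1 with h2 | h2
    · exact absurd (sub_eq_zero.mp h2) hm1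
    · exact eq_neg_of_add_eq_zero_left h2
  rw [← ZMod.natCast_eq_zero_iff]
  push_cast
  rw [hx, div_pow, div_eq_iff (pow_ne_zero _ hb0)] at hm3
  rw [hm3]
  ring

/-- **Dichotomy.** Let `a > b ≥ 1` be coprime and suppose that `(a, b)` is not of the form
`(2 ^ 2 ^ j, 1)`. Then either `F_k = 2 ^ 2 ^ k + 1` is composite for all large `k`, or the
number `(a ^ 2 ^ m + b ^ 2 ^ m) / gcd (2, a + b)` is composite for infinitely many `m`. -/
theorem result (a b : ℕ) (hb : 1 ≤ b) (hab : b < a) (hcop : Nat.Coprime a b)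
    (hne : ¬ (b = 1 ∧ ∃ j : ℕ, a = 2 ^ 2 ^ j)) :
    (∃ K : ℕ, ∀ k : ℕ, K ≤ k → ¬ (2 ^ 2 ^ k + 1).Prime) ∨
      (∀ M : ℕ, ∃ m : ℕ, M ≤ m ∧ ∃ u v : ℕ, 1 < u ∧ 1 < v ∧
        (a ^ 2 ^ m + b ^ 2 ^ m) / Nat.gcd 2 (a + b) = u * v) := by
  by_cases hfin : ∃ K : ℕ, ∀ k : ℕ, K ≤ k → ¬ (2 ^ 2 ^ k + 1).Prime
  · exact Or.inl hfin
  right
  push Not at hfin
  intro M₀
  set M := M₀ + 2 with hM
  obtain ⟨k, hk, hp⟩ := hfin (a ^ 2 ^ M + 2)
  have hk2 : a ^ 2 ^ M < 2 ^ 2 ^ k + 1 := by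
    have h1 : k < 2 ^ k := Nat.lt_two_pow_self
    have h2 : 2 ^ k < 2 ^ 2 ^ k := Nat.lt_two_pow_self
    omega
  obtain ⟨m, hm, hdvd⟩ := exists_dvd a b k M hb hab hp hk2
  refine ⟨m, by omega, ?_⟩
  set g := Nat.gcd 2 (a + b) with hg
  have hg12 : g = 1 ∨ g = 2 := by
    have : g ∣ 2 := Nat.gcd_dvd_left 2 (a + b)
    exact (Nat.dvd_prime Nat.prime_two).mp this
  have hgab : g ∣ a + b := Nat.gcd_dvd_right 2 (a + b)
  have hodd : Nat.Coprime (2 ^ 2 ^ k + 1) 2 := by
    rw [Nat.coprime_two_right, Nat.odd_iff]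
    have : 2 ∣ 2 ^ 2 ^ k := dvd_pow_self 2 (by positivity)
    omega
  have hgN : g ∣ a ^ 2 ^ m + b ^ 2 ^ m := by
    rcases hg12 with h | h
    · rw [h]; exact one_dvd _
    · rw [h] at hgab ⊢
      have h1 : Even (a + b) := even_iff_two_dvd.mpr hgab
      rw [← even_iff_two_dvd, Nat.even_add, Nat.even_pow' (by positivity),
        Nat.even_pow' (by positivity)]
      exact Nat.even_add.mp h1
  have hpg : Nat.Coprime (2 ^ 2 ^ k + 1) g := by
    rcases hg12 with h | h
    · rw [h]; exact Nat.coprime_one_right _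
    · rw [h]; exact hodd
  have hgpos : 0 < g := by omega
  obtain ⟨N, hN⟩ := hgN
  have hNdiv : (a ^ 2 ^ m + b ^ 2 ^ m) / g = N := by
    rw [hN, Nat.mul_div_cancel_left _ hgpos]
  have hpN : (2 ^ 2 ^ k + 1) ∣ N := by
    rw [hN] at hdvd
    exact hpg.dvd_of_dvd_mul_left hdvd
  obtain ⟨c, hc⟩ := hpN
  rw [hNdiv]
  refine ⟨2 ^ 2 ^ k + 1, c, hp.one_lt, ?_, hc⟩
  have hapos : 0 < a ^ 2 ^ m := pow_pos (by omega) _
  have hNpos : 0 < N := by
    rcases Nat.eq_zero_or_pos N with h | h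
    · rw [h] at hN; simp at hN; omega
    · exact h
  have hcpos : 0 < c := by
    rcases Nat.eq_zero_or_pos c with h | h
    · rw [h] at hc; omega
    · exact h
  by_contra hc1
  have hc2 : c = 1 := by omega
  rw [hc2, mul_one] at hc
  rw [hc] at hN
  -- now a ^ 2 ^ m + b ^ 2 ^ m = g * F_k
  obtain ⟨n, rfl⟩ : ∃ n, m = n + 1 := ⟨m - 1, by omega⟩
  have hk1 : 2 ≤ k := by omega
  obtain ⟨l, rfl⟩ : ∃ l, k = l + 2 := ⟨k - 2, by omega⟩
  set T : ℤ := 2 ^ 2 ^ (l + 1) with hT
  have hT2 : T ^ 2 = 2 ^ 2 ^ (l + 2) := by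
    rw [hT, ← pow_mul, ← pow_succ]
  have hT1 : 1 < T := by
    rw [hT]
    exact one_lt_pow₀ (by norm_num) (by positivity)
  have hpZ : Prime (T ^ 2 + 1) := by
    rw [hT2]
    have := Nat.prime_iff_prime_int.mp hp
    push_cast at this
    exact this
  have hX : (0 : ℤ) < (a : ℤ) ^ 2 ^ n := by
    have : (0 : ℤ) < a := by exact_mod_cast (by omega : 0 < a)
    positivity
  have hY : (0 : ℤ) < (b : ℤ) ^ 2 ^ n := by
    have : (0 : ℤ) < b := by exact_mod_cast (by omega : 0 < b)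
    positivity
  have hXY : (b : ℤ) ^ 2 ^ n < (a : ℤ) ^ 2 ^ n := by
    exact_mod_cast Nat.pow_lt_pow_left hab (by positivity)
  have hgZ : (g : ℤ) = 1 ∨ (g : ℤ) = 2 := by
    rcases hg12 with h | h
    · left; exact_mod_cast h
    · right; exact_mod_cast h
  have hNZ : ((a : ℤ) ^ 2 ^ n) ^ 2 + ((b : ℤ) ^ 2 ^ n) ^ 2 = (g : ℤ) * (T ^ 2 + 1) := by
    rw [hT2, ← pow_mul, ← pow_mul, ← pow_succ]
    exact_mod_cast hN
  rcases rep_unique T _ _ _ hT1 hpZ hX hY hXY hgZ hNZ with ⟨-, hY1, hXT⟩ | ⟨-, hY1⟩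
  · -- b = 1 and a is a power of two of the excluded shape
    apply hne
    have hb1 : b ^ 2 ^ n = 1 := by exact_mod_cast hY1
    have hb1' : b = 1 := by
      rcases Nat.pow_eq_one.mp hb1 with h | h
      · exact h
      · exact absurd h (by positivity)
    refine ⟨hb1', ?_⟩
    have haT : a ^ 2 ^ n = 2 ^ 2 ^ (l + 1) := by
      rw [hT] at hXT
      exact_mod_cast hXT
    have hdvd2 : a ∣ 2 ^ 2 ^ (l + 1) := by
      rw [← haT]
      exact dvd_pow_self a (by positivity)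
    obtain ⟨e, -, rfl⟩ := (Nat.dvd_prime_pow Nat.prime_two).mp hdvd2
    rw [← pow_mul] at haT
    have he : e * 2 ^ n = 2 ^ (l + 1) := Nat.pow_right_injective (le_refl 2) haT
    have he2 : e ∣ 2 ^ (l + 1) := ⟨2 ^ n, he.symm⟩
    obtain ⟨j, -, hj⟩ := (Nat.dvd_prime_pow Nat.prime_two).mp he2
    exact ⟨j, by rw [hj]⟩
  · -- b ^ 2 ^ n = T - 1 with both b ^ 2 ^ n and T squares
    obtain ⟨q, rfl⟩ : ∃ q, n = q + 1 := ⟨n - 1, by omega⟩
    have hTsq : T = (2 ^ 2 ^ l : ℤ) ^ 2 := by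
      rw [hT, ← pow_mul, ← pow_succ]
    set t : ℤ := 2 ^ 2 ^ l with ht
    have ht1 : 1 < t := by
      rw [ht]
      exact one_lt_pow₀ (by norm_num) (by positivity)
    set y : ℤ := (b : ℤ) ^ 2 ^ q with hy
    have hypos : 0 < y := by
      have : (0 : ℤ) < b := by exact_mod_cast (by omega : 0 < b)
      positivity
    have hyy : (b : ℤ) ^ 2 ^ (q + 1) = y ^ 2 := by
      rw [hy, ← pow_mul, ← pow_succ]
    rw [hyy, hTsq] at hY1
    have hyy1 : y ^ 2 = t ^ 2 - 1 := hY1
    clear_value t y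
    clear hY1 hyy hTsq
    have h1 : y < t := by
      by_contra hcon
      push Not at hcon
      nlinarith
    have h2 : y ≤ t - 1 := by omega
    have h3 : y * y ≤ (t - 1) * (t - 1) := mul_self_le_mul_self hypos.le h2
    nlinarith

end Pool.Agent.Results.MP_37e5fa_nt.GFDichotomy
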