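import Mathlib

/-!
# A dichotomy for Fermat primes and Lucas sequences at powers of two
-/

set_option autoImplicit false

namespace Pool.Agent.Results.MP_37e5fa_nt.LucasDichotomy

/-- if `P ^ 2 - 4 Q` is a nonzero square modulo the Fermat prime `p` and `p` does not divide `Q`,
then `p` divides a term -/
theorem dvd_term (P Q : ℤ) (V : ℕ → ℤ) (h0 : V 0 = P)
    (hV : ∀ m, V (m + 1) = V m ^ 2 - 2 * Q ^ (2 ^ m)) (k : ℕ) (hp : (2 ^ (2 ^ k) + 1).Prime)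
    (hk : 0 < k)
    (hQ : ((Q : ℤ) : ZMod (2 ^ (2 ^ k) + 1)) ≠ 0)
    (hD : ((P ^ 2 - 4 * Q : ℤ) : ZMod (2 ^ (2 ^ k) + 1)) ≠ 0)
    (hsq : IsSquare ((P ^ 2 - 4 * Q : ℤ) : ZMod (2 ^ (2 ^ k) + 1))) :
    ∃ m, ((2 ^ (2 ^ k) + 1 : ℕ) : ℤ) ∣ V m := by
  set p := 2 ^ (2 ^ k) + 1 with hpdef
  have : Fact p.Prime := ⟨hp⟩
  have hp3 : 2 < p := by
    have h1 : 1 < 2 ^ k := Nat.one_lt_two_pow (by omega)
    have h2 : 2 ^ k < 2 ^ (2 ^ k) := Nat.lt_two_pow_self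
    omega
  have hp2 : (2 : ZMod p) ≠ 0 := by
    intro h
    have h1 : ((2 : ℕ) : ZMod p) = 0 := by exact_mod_cast h
    rw [ZMod.natCast_eq_zero_iff] at h1
    have := Nat.le_of_dvd (by norm_num) h1
    omega
  have h4 : (4 : ZMod p) ≠ 0 := by
    have : (4 : ZMod p) = 2 * 2 := by norm_num
    rw [this]; exact mul_ne_zero hp2 hp2
  obtain ⟨d, hd⟩ := hsq
  have hd0 : d ≠ 0 := by
    rintro rfl
    exact hD (by rw [hd, mul_zero])
  push_cast at hd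
  set α : ZMod p := ((P : ZMod p) + d) / 2 with hα
  set β : ZMod p := ((P : ZMod p) - d) / 2 with hβ
  have hsum : α + β = P := by
    rw [hα, hβ]; field_simp; ring
  have hdiff : α - β = d := by
    rw [hα, hβ]; field_simp; ring
  have hprod : α * β = Q := by
    have h1 : α * β = ((P : ZMod p) ^ 2 - d * d) / 4 := by
      rw [hα, hβ]; field_simp; ring
    rw [h1, ← hd]
    field_simp
    ring
  have hα0 : α ≠ 0 := by
    intro h; rw [h, zero_mul] at hprod; exact hQ hprod.symm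
  have hβ0 : β ≠ 0 := by
    intro h; rw [h, mul_zero] at hprod; exact hQ hprod.symm
  have hterm : ∀ m, (V m : ZMod p) = α ^ (2 ^ m) + β ^ (2 ^ m) := by
    intro m
    induction m with
    | zero => rw [h0, pow_zero, pow_one, pow_one, hsum]
    | succ m ih =>
      rw [hV]
      have e : ∀ y : ZMod p, y ^ (2 ^ (m + 1)) = (y ^ (2 ^ m)) ^ 2 := fun y => by
        rw [← pow_mul, pow_succ]
      have h5 : α ^ (2 ^ m) * β ^ (2 ^ m) = (Q : ZMod p) ^ (2 ^ m) := by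
        rw [← mul_pow, hprod]
      rw [e α, e β]
      push_cast
      rw [ih, ← h5]
      ring
  set γ := α / β with hγ
  have hγ0 : γ ≠ 0 := div_ne_zero hα0 hβ0
  have hfin : γ ^ (2 ^ (2 ^ k)) = 1 := by
    have h1 := ZMod.pow_card_sub_one_eq_one hγ0
    have h2 : p - 1 = 2 ^ (2 ^ k) := by omega
    rwa [h2] at h1
  have hex : ∃ j, γ ^ (2 ^ j) = 1 := ⟨2 ^ k, hfin⟩
  classical
  set j := Nat.find hex with hj
  have hj1 : γ ^ (2 ^ j) = 1 := Nat.find_spec hex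
  have hmin : ∀ i, i < j → γ ^ (2 ^ i) ≠ 1 := fun i hi => Nat.find_min hex hi
  have hj0 : j ≠ 0 := by
    intro h
    rw [h, pow_zero, pow_one, hγ, div_eq_one_iff_eq hβ0] at hj1
    rw [hj1, sub_self] at hdiff
    exact hd0 hdiff.symm
  obtain ⟨i, hi⟩ : ∃ i, j = i + 1 := ⟨j - 1, by omega⟩
  refine ⟨i, ?_⟩
  rw [← ZMod.intCast_zmod_eq_zero_iff_dvd, hterm]
  have h1 : (γ ^ (2 ^ i)) * (γ ^ (2 ^ i)) = 1 := by
    rw [← pow_add, ← hj1, hi, pow_succ, mul_two]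
  rcases mul_self_eq_one_iff.mp h1 with h | h
  · exact absurd h (hmin i (by omega))
  · rw [hγ, div_pow, div_eq_iff (pow_ne_zero _ hβ0)] at h
    rw [h]; ring

/-- `|2^m x - 2^k| ≤ 2` for pairs with unbounded `m` forces `2^m x = 2^k` -/
theorem rigid (x : ℝ) (hx : 0 < x)
    (h : ∀ M : ℕ, ∃ m k : ℕ, M ≤ m ∧ |(2:ℝ) ^ m * x - 2 ^ k| ≤ 2) :
    ∃ M₀ : ℕ, ∀ m k : ℕ, M₀ ≤ m → |(2:ℝ) ^ m * x - 2 ^ k| ≤ 2 → (2:ℝ) ^ m * x = 2 ^ k := by
  obtain ⟨M₀, hM₀⟩ : ∃ M₀ : ℕ, 8 / x < 2 ^ M₀ := pow_unbounded_of_one_lt _ (by norm_num)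
  have h8 : ∀ m, M₀ ≤ m → 8 < (2:ℝ) ^ m * x := by
    intro m hm
    have h1 : (2:ℝ) ^ M₀ ≤ 2 ^ m := pow_le_pow_right₀ (by norm_num) hm
    rw [div_lt_iff₀ hx] at hM₀
    nlinarith
  refine ⟨M₀, fun m k hm hmk => ?_⟩
  -- any other pair has the same quotient
  have key : ∀ m' k' : ℕ, M₀ ≤ m' → |(2:ℝ) ^ m' * x - 2 ^ k'| ≤ 2 → k + m' = k' + m := by
    intro m' k' hm' hmk'
    have a1 := h8 m hm
    have a2 := h8 m' hm'
    rw [abs_le] at hmk hmk'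
    have b1 : (2:ℝ) ^ k ≤ 5 / 4 * (2 ^ m * x) := by linarith [hmk.1]
    have b2 : 3 / 4 * (2 ^ m * x) ≤ (2:ℝ) ^ k := by linarith [hmk.2]
    have b3 : (2:ℝ) ^ k' ≤ 5 / 4 * (2 ^ m' * x) := by linarith [hmk'.1]
    have b4 : 3 / 4 * (2 ^ m' * x) ≤ (2:ℝ) ^ k' := by linarith [hmk'.2]
    have pm : (0:ℝ) < 2 ^ m := by positivity
    have pm' : (0:ℝ) < 2 ^ m' := by positivity
    have c1 : (2:ℝ) ^ (k + m') ≤ 5 / 4 * (2 ^ m * 2 ^ m' * x) := by
      rw [pow_add]; nlinarith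
    have c2 : 3 / 4 * (2 ^ m * 2 ^ m' * x) ≤ (2:ℝ) ^ (k + m') := by
      rw [pow_add]; nlinarith
    have c3 : (2:ℝ) ^ (k' + m) ≤ 5 / 4 * (2 ^ m * 2 ^ m' * x) := by
      rw [pow_add]; nlinarith
    have c4 : 3 / 4 * (2 ^ m * 2 ^ m' * x) ≤ (2:ℝ) ^ (k' + m) := by
      rw [pow_add]; nlinarith
    have py : 0 < (2:ℝ) ^ m * 2 ^ m' * x := by positivity
    by_contra hne
    rcases Nat.lt_or_gt_of_ne hne with hlt | hlt
    · have : (2:ℝ) ^ (k + m' + 1) ≤ 2 ^ (k' + m) := pow_le_pow_right₀ (by norm_num) (by omega)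
      rw [pow_succ] at this
      linarith
    · have : (2:ℝ) ^ (k' + m + 1) ≤ 2 ^ (k + m') := pow_le_pow_right₀ (by norm_num) (by omega)
      rw [pow_succ] at this
      linarith
  -- the distance is arbitrarily small
  by_contra hne
  have hpos : 0 < |(2:ℝ) ^ m * x - 2 ^ k| := abs_pos.mpr (sub_ne_zero.mpr hne)
  obtain ⟨M₁, hM₁⟩ : ∃ M₁ : ℕ, 2 * 2 ^ m / |(2:ℝ) ^ m * x - 2 ^ k| < 2 ^ M₁ :=
    pow_unbounded_of_one_lt _ (by norm_num)
  obtain ⟨m', k', hm', hmk'⟩ := h (M₀ + M₁)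
  have hk := key m' k' (by omega) hmk'
  have h1 : (2:ℝ) ^ m * |(2:ℝ) ^ m' * x - 2 ^ k'| = 2 ^ m' * |(2:ℝ) ^ m * x - 2 ^ k| := by
    have pm : (0:ℝ) ≤ 2 ^ m := by positivity
    have pm' : (0:ℝ) ≤ 2 ^ m' := by positivity
    have e1 : (2:ℝ) ^ m * |(2:ℝ) ^ m' * x - 2 ^ k'| = |2 ^ m * ((2:ℝ) ^ m' * x - 2 ^ k')| := by
      rw [abs_mul, abs_of_nonneg pm]
    have e2 : (2:ℝ) ^ m' * |(2:ℝ) ^ m * x - 2 ^ k| = |2 ^ m' * ((2:ℝ) ^ m * x - 2 ^ k)| := by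
      rw [abs_mul, abs_of_nonneg pm']
    have e3 : (2:ℝ) ^ k * 2 ^ m' = 2 ^ k' * 2 ^ m := by rw [← pow_add, ← pow_add, hk]
    rw [e1, e2]
    congr 1
    linear_combination e3
  rw [div_lt_iff₀ hpos] at hM₁
  have h2 : (2:ℝ) ^ M₁ ≤ 2 ^ m' := pow_le_pow_right₀ (by norm_num) (by omega)
  have pm : (0:ℝ) < 2 ^ m := by positivity
  nlinarith

/-- the two real roots -/
theorem roots (P Q : ℤ) (hP : 0 < P) (hΔ : 0 < P ^ 2 - 4 * Q) (hns : ¬ IsSquare (P ^ 2 - 4 * Q)) :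
    ∃ α β : ℝ, α + β = P ∧ α * β = Q ∧ |β| < α ∧ 1 < α := by
  have hQ : Q ≠ 0 := by
    rintro rfl
    exact hns ⟨P, by ring⟩
  have hΔ' : (0:ℝ) < (P:ℝ) ^ 2 - 4 * Q := by exact_mod_cast hΔ
  have hP' : (0:ℝ) < P := by exact_mod_cast hP
  set w := Real.sqrt ((P:ℝ) ^ 2 - 4 * Q) with hw
  have hw2 : w ^ 2 = (P:ℝ) ^ 2 - 4 * Q := Real.sq_sqrt hΔ'.le
  have hw0 : 0 < w := Real.sqrt_pos.mpr hΔ'
  have hb : |((P:ℝ) - w) / 2| < ((P:ℝ) + w) / 2 := by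
    rw [abs_lt]; constructor <;> linarith
  refine ⟨((P:ℝ) + w) / 2, ((P:ℝ) - w) / 2, by ring, ?_, hb, ?_⟩
  · have : ((P:ℝ) + w) / 2 * (((P:ℝ) - w) / 2) = ((P:ℝ) ^ 2 - w ^ 2) / 4 := by ring
    rw [this, hw2]; ring
  · have h1 : ((P:ℝ) + w) / 2 * (((P:ℝ) - w) / 2) = Q := by
      have : ((P:ℝ) + w) / 2 * (((P:ℝ) - w) / 2) = ((P:ℝ) ^ 2 - w ^ 2) / 4 := by ring
      rw [this, hw2]; ring
    have h2 : (1:ℝ) ≤ |(Q:ℝ)| := by
      have : 1 ≤ |Q| := Int.one_le_abs hQ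
      exact_mod_cast this
    have ha : 0 < ((P:ℝ) + w) / 2 := by positivity
    rw [← h1, abs_mul, abs_of_pos ha] at h2
    by_contra hle
    have hle' : ((P:ℝ) + w) / 2 ≤ 1 := not_lt.mp hle
    have h3 : |((P:ℝ) - w) / 2| < 1 := lt_of_lt_of_le hb hle'
    nlinarith [abs_nonneg (((P:ℝ) - w) / 2)]

/-- consequences of `V m = g (2 ^ 2 ^ k + 1)` -/
theorem size (α β : ℝ) (hβ : |β| < α) (hα : 1 < α) (m k : ℕ) (hm : 1 ≤ m) (g : ℝ)
    (hg : g = 1 ∨ g = 2) (h : α ^ (2 ^ m) + β ^ (2 ^ m) = g * (2 ^ (2 ^ k) + 1)) :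
    |(2:ℝ) ^ m * Real.logb 2 α - 2 ^ k| ≤ 2 ∧
    ((2:ℝ) ^ m * Real.logb 2 α = 2 ^ k → β = 1 ∨ β = -1) := by
  have hα0 : 0 < α := by linarith
  obtain ⟨m', rfl⟩ : ∃ m', m = m' + 1 := ⟨m - 1, by omega⟩
  have hev : β ^ (2 ^ (m' + 1)) = |β| ^ (2 ^ (m' + 1)) := by
    rw [Even.pow_abs]
    exact ⟨2 ^ m', by ring⟩
  have hb0 : 0 ≤ β ^ (2 ^ (m' + 1)) := by rw [hev]; positivity
  have hb1 : β ^ (2 ^ (m' + 1)) < α ^ (2 ^ (m' + 1)) := by
    rw [hev]; exact pow_lt_pow_left₀ hβ (abs_nonneg _) (by positivity)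
  have hap : 0 < α ^ (2 ^ (m' + 1)) := by positivity
  have hk1 : (1:ℝ) ≤ 2 ^ (2 ^ k) := one_le_pow₀ (by norm_num)
  have hlog1 : Real.logb 2 (α ^ (2 ^ (m' + 1))) = 2 ^ (m' + 1) * Real.logb 2 α := by
    rw [Real.logb_pow]; push_cast; rfl
  have hlog2 : ∀ n : ℕ, Real.logb 2 ((2:ℝ) ^ n) = n := by
    intro n
    rw [Real.logb_pow, Real.logb_self_eq_one (by norm_num), mul_one]
  constructor
  · rw [abs_le]
    constructor
    · -- 2 ^ k ≤ 2 ^ m x + 2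
      have h1 : (2:ℝ) ^ (2 ^ k) ≤ 2 * α ^ (2 ^ (m' + 1)) := by
        rcases hg with rfl | rfl <;> nlinarith
      have h2 := Real.logb_le_logb_of_le (b := 2) (by norm_num) (by positivity) h1
      rw [hlog2, Real.logb_mul (by norm_num) hap.ne', hlog1,
        Real.logb_self_eq_one (by norm_num)] at h2
      push_cast at h2
      linarith
    · have h1 : α ^ (2 ^ (m' + 1)) ≤ (2:ℝ) ^ (2 ^ k + 2) := by
        rw [pow_add (2:ℝ) (2 ^ k) 2]
        rcases hg with rfl | rfl <;> nlinarith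
      have h2 := Real.logb_le_logb_of_le (b := 2) (by norm_num) (by positivity) h1
      rw [hlog2, hlog1] at h2
      push_cast at h2
      linarith
  · intro he
    have h1 : α ^ (2 ^ (m' + 1)) = (2:ℝ) ^ (2 ^ k) := by
      apply Real.logb_injOn_pos (b := 2) (by norm_num) (Set.mem_Ioi.mpr hap)
        (Set.mem_Ioi.mpr (by positivity))
      rw [hlog1, hlog2, he]; push_cast; rfl
    rcases hg with rfl | rfl
    · have h2 : β ^ (2 ^ (m' + 1)) = 1 := by linarith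
      rw [hev] at h2
      have h3 : |β| = 1 := (pow_eq_one_iff_of_nonneg (abs_nonneg _) (by positivity)).mp h2
      exact eq_or_eq_neg_of_abs_eq h3
    · exfalso
      linarith

theorem core (P Q : ℤ) (hP : 0 < P) (hΔ : 0 < P ^ 2 - 4 * Q) (hns : ¬ IsSquare (P ^ 2 - 4 * Q))
    (hi : ∀ N : ℕ, ∃ k ≥ N, (2 ^ (2 ^ k) + 1).Prime ∧
      IsSquare ((P ^ 2 - 4 * Q : ℤ) : ZMod (2 ^ (2 ^ k) + 1)))
    (V : ℕ → ℤ) (h0 : V 0 = P) (hV : ∀ m, V (m + 1) = V m ^ 2 - 2 * Q ^ (2 ^ m)) :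
    ∀ M : ℕ, ∃ m ≥ M, ∃ u v : ℤ, 1 < u ∧ 1 < v ∧ V m = Int.gcd 2 P * (u * v) := by
  have hQ : Q ≠ 0 := by
    rintro rfl
    exact hns ⟨P, by ring⟩
  obtain ⟨α, β, hs, hpr, hβ, hα⟩ := roots P Q hP hΔ hns
  have hα0 : 0 < α := by linarith
  have hterm : ∀ m, (V m : ℝ) = α ^ (2 ^ m) + β ^ (2 ^ m) := by
    intro m
    induction m with
    | zero => rw [h0, pow_zero, pow_one, pow_one, hs]
    | succ m ih =>
      rw [hV]
      have e : ∀ y : ℝ, y ^ (2 ^ (m + 1)) = (y ^ (2 ^ m)) ^ 2 := fun y => by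
        rw [← pow_mul, pow_succ]
      have h5 : α ^ (2 ^ m) * β ^ (2 ^ m) = (Q : ℝ) ^ (2 ^ m) := by
        rw [← mul_pow, hpr]
      rw [e α, e β]
      push_cast
      rw [ih, ← h5]
      ring
  have hpos : ∀ m, 0 < V m := by
    intro m
    rcases Nat.eq_zero_or_pos m with rfl | hm
    · rw [h0]; exact hP
    · obtain ⟨m', rfl⟩ : ∃ m', m = m' + 1 := ⟨m - 1, by omega⟩
      have hev : β ^ (2 ^ (m' + 1)) = |β| ^ (2 ^ (m' + 1)) := by
        rw [Even.pow_abs]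
        exact ⟨2 ^ m', by ring⟩
      have : (0:ℝ) < V (m' + 1) := by
        rw [hterm, hev]; positivity
      exact_mod_cast this
  -- the gcd
  have hgc : ∃ g : ℤ, (g = 1 ∨ g = 2) ∧ (Int.gcd 2 P : ℤ) = g ∧ ∀ m, g ∣ V m := by
    by_cases he : (2:ℤ) ∣ P
    · refine ⟨2, Or.inr rfl, ?_, ?_⟩
      · exact Int.gcd_eq_left (by norm_num) he
      · intro m
        induction m with
        | zero => rwa [h0]
        | succ m ih =>
          rw [hV]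
          exact dvd_sub (dvd_pow ih two_ne_zero) (dvd_mul_right _ _)
    · refine ⟨1, Or.inl rfl, ?_, fun m => one_dvd _⟩
      have : Int.gcd 2 P = 1 := by
        rw [← Int.isCoprime_iff_gcd_eq_one]
        exact (Prime.coprime_iff_not_dvd Int.prime_two).mpr he
      rw [this]; rfl
  obtain ⟨g, hg, hgg, hgV⟩ := hgc
  rw [hgg]
  by_contra hcon
  push Not at hcon
  obtain ⟨M, hM⟩ := hcon
  have hgR : ((g : ℤ) : ℝ) = 1 ∨ ((g : ℤ) : ℝ) = 2 := by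
    rcases hg with rfl | rfl
    · left; norm_num
    · right; norm_num
  -- the pairs
  have hpair : ∀ M' : ℕ, ∃ m k : ℕ, M' ≤ m ∧ V m = g * (2 ^ (2 ^ k) + 1) := by
    intro M'
    set S : ℤ := ∑ i ∈ Finset.range (M + M' + 1), V i with hS
    have hSi : ∀ i, i ≤ M + M' → V i ≤ S := by
      intro i hi'
      exact Finset.single_le_sum (f := V) (fun j _ => (hpos j).le) (Finset.mem_range.mpr (by omega))
    obtain ⟨k, hk, hp, hsq⟩ := hi (1 + S.toNat + Q.natAbs + (P ^ 2 - 4 * Q).natAbs)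
    have hk1 : k < 2 ^ k := Nat.lt_two_pow_self
    have hk2 : 2 ^ k < 2 ^ (2 ^ k) := Nat.lt_two_pow_self
    have hQ' : ((Q : ℤ) : ZMod (2 ^ (2 ^ k) + 1)) ≠ 0 := by
      rw [Ne, ZMod.intCast_zmod_eq_zero_iff_dvd]
      intro hd
      have h1 := Int.natAbs_dvd_natAbs.mpr hd
      have h2 := Nat.le_of_dvd (by omega) h1
      rw [Int.natAbs_natCast] at h2
      omega
    have hD' : ((P ^ 2 - 4 * Q : ℤ) : ZMod (2 ^ (2 ^ k) + 1)) ≠ 0 := by
      rw [Ne, ZMod.intCast_zmod_eq_zero_iff_dvd]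
      intro hd
      have h1 := Int.natAbs_dvd_natAbs.mpr hd
      have h2 := Nat.le_of_dvd (by omega) h1
      rw [Int.natAbs_natCast] at h2
      omega
    obtain ⟨m, hm⟩ := dvd_term P Q V h0 hV k hp (by omega) hQ' hD' hsq
    have hmp := hpos m
    have hle : ((2 ^ (2 ^ k) + 1 : ℕ) : ℤ) ≤ V m := Int.le_of_dvd hmp hm
    have hmM : M + M' < m := by
      by_contra hlt
      have h1 := hSi m (by omega)
      have h2 : S ≤ S.toNat := Int.self_le_toNat S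
      omega
    refine ⟨m, k, by omega, ?_⟩
    obtain ⟨c, hc⟩ := hgV m
    have hcop : IsCoprime ((2 ^ (2 ^ k) + 1 : ℕ) : ℤ) g := by
      rcases hg with rfl | rfl
      · exact isCoprime_one_right
      · have h2 : Nat.Coprime (2 ^ (2 ^ k) + 1) 2 := by
          rw [Nat.coprime_comm, Nat.coprime_primes Nat.prime_two hp]
          omega
        exact_mod_cast Nat.isCoprime_iff_coprime.mpr h2
    rw [hc] at hm
    obtain ⟨v, hv⟩ := hcop.dvd_of_dvd_mul_left hm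
    have hF : (1:ℤ) < ((2 ^ (2 ^ k) + 1 : ℕ) : ℤ) := by
      have : 1 < 2 ^ (2 ^ k) + 1 := by omega
      exact_mod_cast this
    have hgpos : 0 < g := by rcases hg with rfl | rfl <;> norm_num
    have hcpos : 0 < c := by
      rw [hc] at hmp
      exact (mul_pos_iff_of_pos_left hgpos).mp hmp
    have hvpos : 0 < v := by
      rw [hv] at hcpos
      exact (mul_pos_iff_of_pos_left (by omega)).mp hcpos
    have hv1 : v = 1 := by
      by_contra hne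
      exact hM m (by omega) _ v hF (by omega) (by rw [hc, hv])
    rw [hc, hv, hv1, mul_one]
    push_cast
    ring
  have hx : 0 < Real.logb 2 α := Real.logb_pos (by norm_num) hα
  have hsize : ∀ m k : ℕ, 1 ≤ m → V m = g * (2 ^ (2 ^ k) + 1) →
      |(2:ℝ) ^ m * Real.logb 2 α - 2 ^ k| ≤ 2 ∧
      ((2:ℝ) ^ m * Real.logb 2 α = 2 ^ k → β = 1 ∨ β = -1) := by
    intro m k hm h
    refine size α β hβ hα m k hm (g : ℝ) hgR ?_
    rw [← hterm, h]
    push_cast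
    ring
  obtain ⟨M₀, hM₀⟩ := rigid (Real.logb 2 α) hx (by
    intro M'
    obtain ⟨m, k, hm, h⟩ := hpair (M' + 1)
    exact ⟨m, k, by omega, (hsize m k (by omega) h).1⟩)
  obtain ⟨m, k, hm, h⟩ := hpair (M₀ + 1)
  obtain ⟨h1, h2⟩ := hsize m k (by omega) h
  have h3 := h2 (hM₀ m k (by omega) h1)
  apply hns
  rcases h3 with h3 | h3
  · rw [h3] at hs hpr
    have h4 : (Q : ℝ) = P - 1 := by rw [← hs, ← hpr]; ring
    have h5 : Q = P - 1 := by exact_mod_cast h4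
    exact ⟨P - 2, by rw [h5]; ring⟩
  · rw [h3] at hs hpr
    have h4 : (Q : ℝ) = -P - 1 := by rw [← hs, ← hpr]; ring
    have h5 : Q = -P - 1 := by exact_mod_cast h4
    exact ⟨P + 2, by rw [h5]; ring⟩

/-- `15`, `17`, `21` are squares modulo a Fermat prime -/
theorem sq_of_jac (D k : ℕ) (hk : 2 ≤ k) (hp : (2 ^ (2 ^ k) + 1).Prime) (hD : Odd D)
    (h : jacobiSym ((2 ^ (2 ^ k) + 1 : ℕ) : ℤ) D = 1) :
    IsSquare (D : ZMod (2 ^ (2 ^ k) + 1)) := by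
  have hp' : Fact (2 ^ (2 ^ k) + 1).Prime := ⟨hp⟩
  have h4 : (2 ^ (2 ^ k) + 1) % 4 = 1 := by
    obtain ⟨n, hn⟩ : ∃ n, 2 ^ k = n + 2 := by
      have : 2 ^ 2 ≤ 2 ^ k := Nat.pow_le_pow_right (by norm_num) hk
      exact ⟨2 ^ k - 2, by omega⟩
    rw [hn, pow_add]; omega
  have h1 := jacobiSym.quadratic_reciprocity_one_mod_four h4 hD
  rw [h] at h1
  have h2 : legendreSym (2 ^ (2 ^ k) + 1) (D : ℤ) = 1 := by
    rw [jacobiSym.legendreSym.to_jacobiSym, ← h1]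
  have h3 : ((D : ℤ) : ZMod (2 ^ (2 ^ k) + 1)) ≠ 0 := by
    intro h0
    rw [(legendreSym.eq_zero_iff _ _).mpr h0] at h2
    exact zero_ne_one h2
  have := (legendreSym.eq_one_iff _ h3).mp h2
  simpa using this

theorem pow_mod (D c k : ℕ) (h : 2 ^ (2 ^ c) % D = 1 % D) (hk : c ≤ k) :
    2 ^ (2 ^ k) % D = 1 % D := by
  obtain ⟨l, rfl⟩ : ∃ l, k = c + l := ⟨k - c, by omega⟩
  have h1 : (2 : ℕ) ^ (2 ^ (c + l)) = (2 ^ (2 ^ c)) ^ (2 ^ l) := by
    rw [← pow_mul, ← pow_add]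
  have h2 : (2 : ℕ) ^ (2 ^ c) ≡ 1 [MOD D] := h
  have h3 := h2.pow (2 ^ l)
  rw [one_pow] at h3
  rw [h1]; exact h3

theorem mod21 (k : ℕ) (hk : 2 ≤ k) : 2 ^ (2 ^ k) % 21 = 16 ∨ 2 ^ (2 ^ k) % 21 = 4 := by
  induction k, hk using Nat.le_induction with
  | base => left; norm_num
  | succ k hk ih =>
    rw [pow_succ 2 k, pow_mul, Nat.pow_mod]
    rcases ih with h | h <;> rw [h] <;> norm_num

/-- `2`, `15`, `17`, `21` are squares modulo every large Fermat prime -/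
theorem sq_D (D k : ℕ) (hD : D = 2 ∨ D = 15 ∨ D = 17 ∨ D = 21) (hk : 3 ≤ k)
    (hp : (2 ^ (2 ^ k) + 1).Prime) : IsSquare (D : ZMod (2 ^ (2 ^ k) + 1)) := by
  rcases hD with rfl | rfl | rfl | rfl
  · have hp' : Fact (2 ^ (2 ^ k) + 1).Prime := ⟨hp⟩
    have h8 : 2 ^ (2 ^ k) % 8 = 0 := by
      obtain ⟨n, hn⟩ : ∃ n, 2 ^ k = n + 3 := by
        have : 2 ^ 3 ≤ 2 ^ k := Nat.pow_le_pow_right (by norm_num) hk
        exact ⟨2 ^ k - 3, by omega⟩
      rw [hn, pow_add]; omega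
    have h2 : 2 ^ (2 ^ k) + 1 ≠ 2 := by
      have : 2 ^ 3 ≤ 2 ^ k := Nat.pow_le_pow_right (by norm_num) hk
      omega
    have := (ZMod.exists_sq_eq_two_iff h2).mpr (Or.inl (by omega))
    exact_mod_cast this
  · apply sq_of_jac 15 k (by omega) hp (by decide)
    rw [jacobiSym.mod_left']
    pick_goal 3
    · exact 2
    · norm_num
    · have h := pow_mod 15 2 k (by norm_num) (by omega)
      omega
  · apply sq_of_jac 17 k (by omega) hp (by decide)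
    rw [jacobiSym.mod_left']
    pick_goal 3
    · exact 2
    · norm_num
    · have h := pow_mod 17 3 k (by norm_num) (by omega)
      omega
  · apply sq_of_jac 21 k (by omega) hp (by decide)
    rcases mod21 k (by omega) with h | h
    · rw [jacobiSym.mod_left']
      pick_goal 3
      · exact 17
      · norm_num
      · omega
    · rw [jacobiSym.mod_left']
      pick_goal 3
      · exact 5
      · norm_num
      · omega

/-- `3`, `5`, `7` are nonresidues modulo every large Fermat prime -/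
theorem nonsq (e k : ℕ) (he : e = 3 ∨ e = 5 ∨ e = 7) (hk : 3 ≤ k)
    (hp : (2 ^ (2 ^ k) + 1).Prime) : ¬ IsSquare (e : ZMod (2 ^ (2 ^ k) + 1)) := by
  have hp' : Fact (2 ^ (2 ^ k) + 1).Prime := ⟨hp⟩
  have h4 : (2 ^ (2 ^ k) + 1) % 4 = 1 := by
    obtain ⟨n, hn⟩ : ∃ n, 2 ^ k = n + 2 := by
      have : 2 ^ 3 ≤ 2 ^ k := Nat.pow_le_pow_right (by norm_num) hk
      exact ⟨2 ^ k - 2, by omega⟩
    rw [hn, pow_add]; omega
  have hodd : Odd e := by rcases he with rfl | rfl | rfl <;> decide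
  have h1 := jacobiSym.quadratic_reciprocity_one_mod_four h4 hodd
  have hJ : jacobiSym ((2 ^ (2 ^ k) + 1 : ℕ) : ℤ) e = -1 := by
    rcases he with rfl | rfl | rfl
    · rw [jacobiSym.mod_left']
      pick_goal 3
      · exact 2
      · norm_num
      · have h := pow_mod 3 1 k (by norm_num) (by omega)
        omega
    · rw [jacobiSym.mod_left']
      pick_goal 3
      · exact 2
      · norm_num
      · have h := pow_mod 5 2 k (by norm_num) (by omega)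
        omega
    · rcases mod21 k (by omega) with h | h
      · rw [jacobiSym.mod_left']
        pick_goal 3
        · exact 3
        · norm_num
        · omega
      · rw [jacobiSym.mod_left']
        pick_goal 3
        · exact 5
        · norm_num
        · omega
  rw [hJ] at h1
  have h2 : legendreSym (2 ^ (2 ^ k) + 1) (e : ℤ) = -1 := by
    rw [jacobiSym.legendreSym.to_jacobiSym, h1]
  have h3 := (legendreSym.eq_neg_one_iff (2 ^ (2 ^ k) + 1)).mp h2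
  simpa using h3

/-- the product of two nonresidues is a residue -/
theorem sq_mul (p : ℕ) [Fact p.Prime] (a b : ZMod p) (ha : ¬ IsSquare a) (hb : ¬ IsSquare b) :
    IsSquare (a * b) := by
  have hab : a * b ≠ 0 := by
    intro h
    rcases mul_eq_zero.mp h with h | h
    · exact ha ⟨0, by rw [h, mul_zero]⟩
    · exact hb ⟨0, by rw [h, mul_zero]⟩
  rw [← quadraticChar_one_iff_isSquare hab, map_mul,
    quadraticChar_neg_one_iff_not_isSquare.mpr ha, quadraticChar_neg_one_iff_not_isSquare.mpr hb]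
  norm_num

/-- `Comp d`: for all integers `P ≥ 1`, `Q` whose discriminant `P ^ 2 - 4 Q` is not a perfect
square and is of the form `d z ^ 2`, infinitely many of the numbers `V m / gcd (2, P)` are
composite, where `V m = α ^ (2 ^ m) + β ^ (2 ^ m)` with the roots `α`, `β` of `X ^ 2 - P X + Q`,
that is, `V 0 = P` and `V (m + 1) = V m ^ 2 - 2 Q ^ (2 ^ m)`. -/
def Comp (d : ℕ) : Prop :=
  ∀ P Q z : ℤ, 0 < P → P ^ 2 - 4 * Q = d * z ^ 2 → ¬ IsSquare (P ^ 2 - 4 * Q) →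
    ∀ V : ℕ → ℤ, V 0 = P → (∀ m, V (m + 1) = V m ^ 2 - 2 * Q ^ (2 ^ m)) →
      ∀ M : ℕ, ∃ m ≥ M, ∃ u v : ℤ, 1 < u ∧ 1 < v ∧ V m = Int.gcd 2 P * (u * v)

theorem comp_of (d : ℕ) (h : ∀ N : ℕ, ∃ k ≥ N, (2 ^ (2 ^ k) + 1).Prime ∧
    IsSquare (d : ZMod (2 ^ (2 ^ k) + 1))) : Comp d := by
  intro P Q z hP hd hns V h0 hV
  have hz : z ≠ 0 := by
    rintro rfl
    exact hns ⟨0, by rw [hd]; ring⟩
  have hd0 : d ≠ 0 := by
    rintro rfl
    exact hns ⟨0, by rw [hd]; simp⟩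
  have hΔ : 0 < P ^ 2 - 4 * Q := by
    rw [hd]
    have h1 : (0:ℤ) < d := by exact_mod_cast Nat.pos_of_ne_zero hd0
    positivity
  refine core P Q hP hΔ hns ?_ V h0 hV
  intro N
  obtain ⟨k, hk, hp, r, hr⟩ := h N
  refine ⟨k, hk, hp, r * z, ?_⟩
  rw [hd]
  push_cast
  rw [hr]; ring

/-- (1) If `P ≥ 1`, `Q` are integers whose discriminant is positive, not a perfect square, and a
square modulo infinitely many Fermat primes, then `V m / gcd (2, P)` is composite for infinitely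
many `m`. (2) Either only finitely many Fermat numbers are prime, or `Comp d` holds for
`d = 2, 15, 17, 21, 35`, and for every `d` either `Comp d` or all of `Comp (3 d)`, `Comp (5 d)`,
`Comp (7 d)` hold. -/
theorem result :
    (∀ P Q : ℤ, 0 < P → 0 < P ^ 2 - 4 * Q → ¬ IsSquare (P ^ 2 - 4 * Q) →
      (∀ N : ℕ, ∃ k ≥ N, (2 ^ (2 ^ k) + 1).Prime ∧
        IsSquare ((P ^ 2 - 4 * Q : ℤ) : ZMod (2 ^ (2 ^ k) + 1))) →
      ∀ V : ℕ → ℤ, V 0 = P → (∀ m, V (m + 1) = V m ^ 2 - 2 * Q ^ (2 ^ m)) →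
        ∀ M : ℕ, ∃ m ≥ M, ∃ u v : ℤ, 1 < u ∧ 1 < v ∧ V m = Int.gcd 2 P * (u * v)) ∧
    ((∃ N : ℕ, ∀ k ≥ N, ¬ (2 ^ (2 ^ k) + 1).Prime) ∨
      (Comp 2 ∧ Comp 15 ∧ Comp 17 ∧ Comp 21 ∧ Comp 35 ∧
        ∀ d : ℕ, Comp d ∨ (Comp (3 * d) ∧ Comp (5 * d) ∧ Comp (7 * d)))) := by
  refine ⟨fun P Q hP hΔ hns hi V h0 hV => core P Q hP hΔ hns hi V h0 hV, ?_⟩
  by_cases hi : ∃ N : ℕ, ∀ k ≥ N, ¬ (2 ^ (2 ^ k) + 1).Prime
  · exact Or.inl hi
  right
  push Not at hi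
  have hsq : ∀ D : ℕ, (D = 2 ∨ D = 15 ∨ D = 17 ∨ D = 21) → Comp D := by
    intro D hD
    apply comp_of
    intro N
    obtain ⟨k, hk, hp⟩ := hi (N + 3)
    exact ⟨k, by omega, hp, sq_D D k hD (by omega) hp⟩
  have hmul : ∀ e : ℕ, (e = 3 ∨ e = 5 ∨ e = 7) → ∀ d : ℕ,
      (∃ N : ℕ, ∀ k ≥ N, (2 ^ (2 ^ k) + 1).Prime → ¬ IsSquare (d : ZMod (2 ^ (2 ^ k) + 1))) →
      Comp (e * d) := by
    rintro e he d ⟨N0, hN0⟩
    apply comp_of
    intro N
    obtain ⟨k, hk, hp⟩ := hi (N + N0 + 3)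
    refine ⟨k, by omega, hp, ?_⟩
    have hp' : Fact (2 ^ (2 ^ k) + 1).Prime := ⟨hp⟩
    rw [Nat.cast_mul]
    exact sq_mul _ _ _ (nonsq e k he (by omega) hp) (hN0 k (by omega) hp)
  refine ⟨hsq 2 (by omega), hsq 15 (by omega), hsq 17 (by omega), hsq 21 (by omega), ?_, ?_⟩
  · exact hmul 5 (by omega) 7 ⟨3, fun k hk hp => nonsq 7 k (by omega) hk hp⟩
  · intro d
    by_cases h : ∀ N : ℕ, ∃ k ≥ N, (2 ^ (2 ^ k) + 1).Prime ∧
        IsSquare (d : ZMod (2 ^ (2 ^ k) + 1))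
    · exact Or.inl (comp_of d h)
    · right
      push Not at h
      exact ⟨hmul 3 (by omega) d h, hmul 5 (by omega) d h, hmul 7 (by omega) d h⟩

end Pool.Agent.Results.MP_37e5fa_nt.LucasDichotomy
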