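import Mathlib
import Pool.Agent.H447R2.ML.Law

set_option autoImplicit false

/-!
# Metric finiteness for the Fermat numbers

For real `α > 1`, `β > 0` and `m ≥ 0` let `W α β m` be the `2 ^ m`-rough part (the product, with
multiplicity, of the prime factors larger than `2 ^ m`) of the smallest integer larger than
`β α ^ (2 ^ m)`.  For `α = 2`, `β = 1` this is the Fermat number `2 ^ (2 ^ m) + 1` itself, because
all of its prime factors exceed `2 ^ m`; more generally `W a 1 m = a ^ (2 ^ m) + 1` for all even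
`a ≥ 2`.  We prove that for every `α > 1` and almost every `β > 0` only finitely many `W α β m` are
prime, with the exact order of magnitude of the exceptional probabilities.
-/

namespace Pool.Agent.Results.MP_37e5fa_nt.MetricFiniteness

open Filter Topology MeasureTheory

/-- The product, with multiplicity, of the prime factors of `k` that are larger than `n`. -/
def roughPart (n k : ℕ) : ℕ := (k.primeFactorsList.filter (fun r => n < r)).prod

/-- The `2 ^ m`-rough part of the smallest integer that is larger than `β * α ^ (2 ^ m)`. -/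
noncomputable def W (α β : ℝ) (m : ℕ) : ℕ := roughPart (2 ^ m) (⌊β * α ^ (2 ^ m)⌋₊ + 1)

lemma roughPart_eq : roughPart = Pool.Agent.H305R2.roughPart := rfl

lemma W_even {a : ℕ} (ha : Even a) (m : ℕ) :
    W a 1 m = a ^ (2 ^ m) + 1 := by
  have h1 : ⌊(1 : ℝ) * (a : ℝ) ^ (2 ^ m)⌋₊ = a ^ (2 ^ m) := by
    rw [one_mul]
    exact_mod_cast Nat.floor_natCast (R := ℝ) (a ^ (2 ^ m))
  unfold W
  rw [h1, roughPart_eq]
  refine Pool.Agent.H447R2.ML.roughPart_eq_self (Nat.succ_ne_zero _) fun q hq hdvd => ?_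
  have hodd : Odd (a ^ (2 ^ m) + 1) := by
    refine Even.add_one ?_
    exact (Nat.even_pow.2 ⟨ha, (Nat.two_pow_pos m).ne'⟩)
  have hq2 : q ≠ 2 := by
    rintro rfl
    exact (Nat.not_even_iff_odd.2 hodd) (even_iff_two_dvd.2 hdvd)
  obtain ⟨k, hk⟩ := Nat.pow_pow_add_primeFactors_one_lt hq hq2 hdvd
  have hk0 : k ≠ 0 := by
    rintro rfl
    rw [zero_mul, zero_add] at hk
    exact hq.one_lt.ne' hk
  have h3 : 2 ^ m < k * 2 ^ (m + 1) + 1 := by
    have : 2 ^ m ≤ k * 2 ^ (m + 1) := by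
      rw [pow_succ]
      nlinarith [Nat.two_pow_pos m, Nat.pos_of_ne_zero hk0]
    omega
  omega

/-- the constant perturbation -/
def one' : ℕ → ℝ := fun _ => 1

lemma good : Pool.Agent.H447R2.ML.Good (Pool.Agent.H447R2.ML.fl one') 0 := by
  refine Pool.Agent.H447R2.ML.good_fl (C := 1) le_rfl one_pos fun p => ?_
  simp [one']

/-- the set of logarithmic amplitudes in `(u, u + 1]` with a prime `m`-th term -/
def A (α : ℝ) (u : ℝ) (m : ℕ) : Set ℝ := {b | b ∈ Set.Ioc u (u + 1) ∧ (W α (Real.exp b) m).Prime}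

lemma prime_iff {α : ℝ} (hα : 0 < α) (b : ℝ) (m : ℕ) :
    (W α (Real.exp b) m).Prime ↔
      Pool.Agent.H447R2.ML.fl one' (2 ^ m) (Real.log α * (2 ^ m : ℕ) + b) = 1 := by
  have e : Real.exp (Real.log α * (2 ^ m : ℕ) + b) = Real.exp b * α ^ (2 ^ m) := by
    rw [Real.exp_add, mul_comm (Real.log α), Real.exp_nat_mul, Real.exp_log hα, mul_comm]
  have e2 : ⌊Real.exp b * α ^ (2 ^ m) + 1⌋₊ = ⌊Real.exp b * α ^ (2 ^ m)⌋₊ + 1 :=
    Nat.floor_add_one (by positivity)
  unfold Pool.Agent.H447R2.ML.fl W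
  rw [e, one', e2, roughPart_eq]
  constructor
  · intro h
    rw [if_pos h]
  · intro h
    by_contra hc
    rw [if_neg hc] at h
    exact zero_ne_one h

lemma A_eq {α : ℝ} (hα : 0 < α) (u : ℝ) (m : ℕ) :
    A α u m = {b | Pool.Agent.H447R2.ML.fl one' (2 ^ m) (Real.log α * (2 ^ m : ℕ) + b) = 1} ∩
      Set.Ioc u (u + 1) := by
  ext b
  simp only [A, Set.mem_ofPred_eq, Set.mem_inter_iff]
  rw [prime_iff hα, and_comm]

lemma measurableSet_A {α : ℝ} (hα : 0 < α) (u : ℝ) (m : ℕ) : MeasurableSet (A α u m) := by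
  rw [A_eq hα]
  refine MeasurableSet.inter ?_ measurableSet_Ioc
  exact ((Pool.Agent.H447R2.ML.measurable_fl one' (2 ^ m)).comp (measurable_const_add _))
    (measurableSet_singleton 1)

/-- the exact measure of `A` as an integral -/
lemma volume_A {α : ℝ} (hα : 0 < α) (u : ℝ) (m : ℕ) :
    volume (A α u m) = ENNReal.ofReal (∫ t in Set.Ioc (Real.log α * (2 ^ m : ℕ) + u)
      (Real.log α * (2 ^ m : ℕ) + u + 1), Pool.Agent.H447R2.ML.fl one' (2 ^ m) t) := by
  set x := Real.log α * (2 ^ m : ℕ) with hx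
  set f := Pool.Agent.H447R2.ML.fl one' (2 ^ m) with hf
  have h1 : ∫ t in Set.Ioc (x + u) (x + u + 1), f t = ∫ b in Set.Ioc u (u + 1), f (x + b) := by
    rw [← intervalIntegral.integral_of_le (by linarith),
      ← intervalIntegral.integral_of_le (by linarith),
      intervalIntegral.integral_comp_add_left (fun t => f t) x, add_assoc]
  have hint : IntegrableOn (fun b => f (x + b)) (Set.Ioc u (u + 1)) := by
    refine Measure.integrableOn_of_bounded (M := 1) (by simp)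
      ((Pool.Agent.H447R2.ML.measurable_fl one' (2 ^ m)).comp
        (measurable_const_add x)).aestronglyMeasurable ?_
    exact Eventually.of_forall fun t => by
      rw [Real.norm_eq_abs, abs_of_nonneg (Pool.Agent.H447R2.ML.fl_nonneg _ _ _)]
      exact Pool.Agent.H447R2.ML.fl_le_one _ _ _
  rw [h1, ofReal_integral_eq_lintegral_ofReal hint
    (Eventually.of_forall fun b => Pool.Agent.H447R2.ML.fl_nonneg _ _ _), A_eq hα]
  have hms : MeasurableSet {b | f (x + b) = 1} :=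
    ((Pool.Agent.H447R2.ML.measurable_fl one' (2 ^ m)).comp (measurable_const_add _))
      (measurableSet_singleton 1)
  rw [← Measure.restrict_apply hms, ← lintegral_indicator_one hms]
  refine lintegral_congr fun b => ?_
  by_cases hb : b ∈ {b | f (x + b) = 1}
  · rw [Set.indicator_of_mem hb]
    have : f (x + b) = 1 := hb
    rw [this]
    simp
  · rw [Set.indicator_of_notMem hb]
    have h2 : f (x + b) ≠ 1 := hb
    have h3 : f (x + b) = 0 := by
      rw [hf] at h2 ⊢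
      unfold Pool.Agent.H447R2.ML.fl at h2 ⊢
      split_ifs at h2 ⊢ with h
      · exact absurd rfl h2
      · rfl
    rw [h3]
    simp

lemma tendsto_two_pow : Tendsto (fun m : ℕ => 2 ^ m) atTop atTop :=
  tendsto_pow_atTop_atTop_of_one_lt one_lt_two

/-- the exact asymptotics of the probability that the `m`-th term is prime -/
lemma asymp {α : ℝ} (hα : 1 < α) (u : ℝ) :
    Tendsto (fun m : ℕ => (volume (A α u m)).toReal * (2 ^ m / m)) atTop
      (𝓝 (Real.exp Real.eulerMascheroniConstant * Real.log 2 / Real.log α)) := by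
  have hα0 : 0 < α := by linarith
  have hlog : 0 < Real.log α := Real.log_pos hα
  have hl2 : 0 < Real.log 2 := Real.log_pos one_lt_two
  have h1 := good.asymp (Real.log α) hlog (fun p : ℕ => Real.log α * p + u) (by
    have : Tendsto (fun p : ℕ => Real.log α + u / (p : ℝ)) atTop (𝓝 (Real.log α + 0)) :=
      tendsto_const_nhds.add (tendsto_const_div_atTop_nhds_zero_nat u)
    rw [add_zero] at this
    refine this.congr' ?_
    filter_upwards [eventually_gt_atTop 0] with p hp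
    have : (p : ℝ) ≠ 0 := by exact_mod_cast hp.ne'
    field_simp)
  have h2 := (h1.comp tendsto_two_pow).mul_const (Real.log 2)
  have e : Real.exp Real.eulerMascheroniConstant / Real.log α * Real.log 2 =
      Real.exp Real.eulerMascheroniConstant * Real.log 2 / Real.log α := by ring
  rw [e] at h2
  refine h2.congr' ?_
  filter_upwards [eventually_gt_atTop 0] with m hm
  have hm' : (m : ℝ) ≠ 0 := by exact_mod_cast hm.ne'
  have h3 : 0 ≤ ∫ t in Set.Ioc (Real.log α * (2 ^ m : ℕ) + u)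
      (Real.log α * (2 ^ m : ℕ) + u + 1), Pool.Agent.H447R2.ML.fl one' (2 ^ m) t :=
    setIntegral_nonneg measurableSet_Ioc fun t _ => Pool.Agent.H447R2.ML.fl_nonneg _ _ _
  rw [volume_A hα0, ENNReal.toReal_ofReal h3]
  simp only [Function.comp]
  have e4 : Real.log ((2 ^ m : ℕ) : ℝ) = m * Real.log 2 := by
    rw [Nat.cast_pow, Real.log_pow]; norm_num
  rw [e4]
  have e5 : ((2 ^ m : ℕ) : ℝ) = 2 ^ m := by push_cast; rfl
  rw [e5]
  field_simp

/-- uniform bound for one term -/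
lemma one_term (α₀ : ℝ) (hα₀ : 1 < α₀) (L : ℝ) :
    ∃ C : ℝ, 0 < C ∧ ∀ α : ℝ, α₀ ≤ α → ∀ u : ℝ, -L ≤ u → ∀ m : ℕ, 1 ≤ m →
      volume (A α u m) ≤ ENNReal.ofReal (C * (m / 2 ^ m)) := by
  have hl0 : 0 < Real.log α₀ := Real.log_pos hα₀
  obtain ⟨K, hK, hev⟩ := Pool.Agent.H447R2.ML.bounds good (c := Real.log α₀ / 2) (by linarith)
  have hgrow : Tendsto (fun p : ℕ => Real.log α₀ / 2 * (p : ℝ)) atTop atTop :=
    tendsto_natCast_atTop_atTop.const_mul_atTop (by linarith)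
  have hev2 := hev.and (hgrow.eventually_ge_atTop (L + 1))
  have hev3 := tendsto_two_pow.eventually hev2
  obtain ⟨m0, hm0⟩ := eventually_atTop.1 hev3
  -- the trivial bound handles `m < m0`
  refine ⟨2 * K + 2 ^ m0, by positivity, fun α hα u hu m hm => ?_⟩
  have hα1 : 0 < α := by linarith
  have hm' : (1 : ℝ) ≤ m := by exact_mod_cast hm
  have h2m : (0 : ℝ) < 2 ^ m := by positivity
  rcases lt_or_ge m m0 with hlt | hge
  · have h1 : volume (A α u m) ≤ volume (Set.Ioc u (u + 1)) :=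
      measure_mono fun b hb => hb.1
    refine h1.trans ?_
    rw [Real.volume_Ioc]
    refine ENNReal.ofReal_le_ofReal ?_
    have h3 : (2 : ℝ) ^ m ≤ 2 ^ m0 := pow_le_pow_right₀ (by norm_num) hlt.le
    have h4 : (1 : ℝ) ≤ 2 ^ m0 * (m / 2 ^ m) := by
      rw [← mul_div_assoc, le_div_iff₀ h2m]
      nlinarith
    have h5 : 0 ≤ K * (m / 2 ^ m : ℝ) := by positivity
    nlinarith
  · obtain ⟨hb, hg⟩ := hm0 m hge
    rw [volume_A hα1]
    refine ENNReal.ofReal_le_ofReal ?_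
    have hlogle : Real.log α₀ ≤ Real.log α := Real.log_le_log (by linarith) hα
    have e5 : ((2 ^ m : ℕ) : ℝ) = 2 ^ m := by push_cast; rfl
    have h6 : Real.log α₀ / 2 * ((2 ^ m : ℕ) : ℝ) + 1 ≤ Real.log α * (2 ^ m : ℕ) + u := by
      have : Real.log α₀ * ((2 ^ m : ℕ) : ℝ) ≤ Real.log α * (2 ^ m : ℕ) := by
        refine mul_le_mul_of_nonneg_right hlogle ?_
        positivity
      linarith
    have h7 := hb.2.1 _ (Real.log α * (2 ^ m : ℕ) + u + 1) h6 (by linarith)
    refine h7.trans ?_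
    have e4 : Real.log ((2 ^ m : ℕ) : ℝ) = m * Real.log 2 := by
      rw [Nat.cast_pow, Real.log_pow]; norm_num
    rw [e4, e5]
    have h8 : (1 : ℝ) ≤ 2 ^ m := one_le_pow₀ (by norm_num)
    have h9 : 1 / (2 : ℝ) ^ m ≤ 1 := by rw [div_le_one h2m]; exact h8
    have h10 : Real.log 2 ≤ 1 := by
      have := Real.log_two_lt_d9
      linarith
    have h11 : (m : ℝ) * Real.log 2 / 2 ^ m ≤ m / 2 ^ m := by
      gcongr
      nlinarith
    have h12 : 0 ≤ (m : ℝ) * Real.log 2 / 2 ^ m := by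
      have := Real.log_pos one_lt_two
      positivity
    calc K * ((Real.log α * 2 ^ m + u + 1 - (Real.log α * 2 ^ m + u)) + 1 / 2 ^ m) *
          ((m : ℝ) * Real.log 2 / 2 ^ m) ≤ K * (1 + 1) * (m / 2 ^ m) := by
          gcongr
          linarith
      _ ≤ (2 * K + 2 ^ m0) * (m / 2 ^ m) := by
          have : 0 ≤ (2 : ℝ) ^ m0 * (m / 2 ^ m) := by positivity
          nlinarith

/-- the tail sums of `m / 2 ^ m` -/
lemma tail_sum (M : ℕ) :
    HasSum (fun k : ℕ => ((M + k : ℕ) : ℝ) / 2 ^ (M + k)) ((2 * M + 2) / 2 ^ M) := by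
  have h1 : HasSum (fun k : ℕ => (1 / 2 : ℝ) ^ k) 2 := by
    have := hasSum_geometric_of_lt_one (r := (1 / 2 : ℝ)) (by norm_num) (by norm_num)
    norm_num at this
    simpa using this
  have h2 : HasSum (fun k : ℕ => (k : ℝ) * (1 / 2 : ℝ) ^ k) 2 := by
    have := hasSum_coe_mul_geometric_of_norm_lt_one (𝕜 := ℝ) (r := 1 / 2) (by norm_num)
    norm_num at this
    simpa using this
  have h3 := ((h1.mul_left (M : ℝ)).add h2).mul_left ((1 / 2 : ℝ) ^ M)
  have e : (1 / 2 : ℝ) ^ M * (M * 2 + 2) = (2 * M + 2) / 2 ^ M := by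
    rw [div_pow, one_pow]; ring
  rw [e] at h3
  refine h3.congr_fun ?_
  intro k
  rw [pow_add, div_pow, div_pow, one_pow, one_pow]
  push_cast
  field_simp

theorem union_bound (α₀ : ℝ) (hα₀ : 1 < α₀) (L : ℝ) :
    ∃ C : ℝ, 0 < C ∧ ∀ α : ℝ, α₀ ≤ α → ∀ u : ℝ, -L ≤ u → ∀ M : ℕ, 1 ≤ M →
      volume {b : ℝ | b ∈ Set.Ioc u (u + 1) ∧ ∃ m : ℕ, M ≤ m ∧ (W α (Real.exp b) m).Prime} ≤
        ENNReal.ofReal (C * (M / 2 ^ M)) := by
  obtain ⟨C, hC, h⟩ := one_term α₀ hα₀ L
  refine ⟨4 * C, by positivity, fun α hα u hu M hM => ?_⟩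
  have hM' : (1 : ℝ) ≤ M := by exact_mod_cast hM
  have hsub : {b : ℝ | b ∈ Set.Ioc u (u + 1) ∧ ∃ m : ℕ, M ≤ m ∧ (W α (Real.exp b) m).Prime} ⊆
      ⋃ k : ℕ, A α u (M + k) := by
    rintro b ⟨hb, m, hm, hp⟩
    refine Set.mem_iUnion.2 ⟨m - M, hb, ?_⟩
    rwa [Nat.add_sub_cancel' hm]
  refine (measure_mono hsub).trans ((measure_iUnion_le _).trans ?_)
  have hs := (tail_sum M).mul_left C
  calc ∑' k : ℕ, volume (A α u (M + k)) ≤
        ∑' k : ℕ, ENNReal.ofReal (C * (((M + k : ℕ) : ℝ) / 2 ^ (M + k))) :=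
        ENNReal.tsum_le_tsum fun k => h α hα u hu (M + k) (by omega)
    _ = ENNReal.ofReal (∑' k : ℕ, C * (((M + k : ℕ) : ℝ) / 2 ^ (M + k))) := by
        rw [ENNReal.ofReal_tsum_of_nonneg (fun k => by positivity) hs.summable]
    _ = ENNReal.ofReal (C * ((2 * M + 2) / 2 ^ M)) := by rw [hs.tsum_eq]
    _ ≤ ENNReal.ofReal (4 * C * (M / 2 ^ M)) := by
        refine ENNReal.ofReal_le_ofReal ?_
        have h2 : (0 : ℝ) < 2 ^ M := by positivity
        have : (2 * (M : ℝ) + 2) / 2 ^ M ≤ 4 * (M / 2 ^ M) := by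
          rw [← mul_div_assoc]
          gcongr
          linarith
        nlinarith

lemma tendsto_tail (C : ℝ) : Tendsto (fun M : ℕ => ENNReal.ofReal (C * (M / 2 ^ M))) atTop (𝓝 0) := by
  have h1 : Tendsto (fun M : ℕ => (M : ℝ) / 2 ^ M) atTop (𝓝 0) := by
    have := tendsto_pow_const_div_const_pow_of_one_lt 1 (r := (2 : ℝ)) (by norm_num)
    simpa using this
  have h2 := (h1.const_mul C)
  rw [mul_zero] at h2
  have h3 := (ENNReal.continuous_ofReal.tendsto 0).comp h2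
  rw [ENNReal.ofReal_zero] at h3
  exact h3

theorem finite_log {α : ℝ} (hα : 1 < α) :
    ∀ᵐ b : ℝ, {m : ℕ | (W α (Real.exp b) m).Prime}.Finite := by
  have main : ∀ n : ℕ, volume {b : ℝ | b ∈ Set.Ioc (-(n : ℝ)) n ∧
      ¬ {m : ℕ | (W α (Real.exp b) m).Prime}.Finite} = 0 := by
    intro n
    obtain ⟨C, hC, h⟩ := union_bound α hα n
    -- cover by unit windows
    have hcov : {b : ℝ | b ∈ Set.Ioc (-(n : ℝ)) n ∧
        ¬ {m : ℕ | (W α (Real.exp b) m).Prime}.Finite} ⊆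
        ⋃ j : ℕ, {b : ℝ | b ∈ Set.Ioc (-(n : ℝ) + j) (-(n : ℝ) + j + 1) ∧
          ¬ {m : ℕ | (W α (Real.exp b) m).Prime}.Finite} := by
      rintro b ⟨hb, hinf⟩
      obtain ⟨j, hj⟩ : ∃ j : ℕ, b ∈ Set.Ioc (-(n : ℝ) + j) (-(n : ℝ) + j + 1) := by
        have h0 : 0 < b + n := by linarith [hb.1]
        have h1 : 0 < ⌈b + n⌉₊ := Nat.ceil_pos.2 h0
        refine ⟨⌈b + n⌉₊ - 1, ?_, ?_⟩
        · have := Nat.ceil_lt_add_one h0.le
          rw [Nat.cast_sub h1, Nat.cast_one]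
          linarith
        · have := Nat.le_ceil (b + n)
          rw [Nat.cast_sub h1, Nat.cast_one]
          linarith
      exact Set.mem_iUnion.2 ⟨j, hj, hinf⟩
    refine measure_mono_null hcov ((measure_iUnion_null_iff).2 fun j => ?_)
    have hle : ∀ M : ℕ, 1 ≤ M → volume {b : ℝ | b ∈ Set.Ioc (-(n : ℝ) + j) (-(n : ℝ) + j + 1) ∧
          ¬ {m : ℕ | (W α (Real.exp b) m).Prime}.Finite} ≤ ENNReal.ofReal (C * (M / 2 ^ M)) := by
      intro M hM
      refine (measure_mono ?_).trans (h α le_rfl (-(n : ℝ) + j) (by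
        have : (0 : ℝ) ≤ j := Nat.cast_nonneg j
        linarith) M hM)
      rintro b ⟨hb, hinf⟩
      refine ⟨hb, ?_⟩
      by_contra hno
      push Not at hno
      exact hinf ((Set.finite_lt_nat M).subset fun m hm => by
        by_contra hlt
        exact hno m (by simpa using hlt) hm)
    have h0 : volume {b : ℝ | b ∈ Set.Ioc (-(n : ℝ) + j) (-(n : ℝ) + j + 1) ∧
          ¬ {m : ℕ | (W α (Real.exp b) m).Prime}.Finite} ≤ 0 :=
      ge_of_tendsto (tendsto_tail C) (eventually_atTop.2 ⟨1, fun M hM => hle M hM⟩)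
    exact le_antisymm h0 bot_le
  rw [ae_iff]
  refine measure_mono_null ?_ ((measure_iUnion_null_iff).2 main)
  intro b hb
  obtain ⟨n, hn⟩ := exists_nat_gt |b|
  rw [abs_lt] at hn
  exact Set.mem_iUnion.2 ⟨n, ⟨hn.1, hn.2.le⟩, hb⟩

lemma ae_exp1 {P : ℝ → Prop} (h : ∀ᵐ z : ℝ, P (Real.exp z)) : ∀ᵐ z : ℝ, 0 < z → P z := by
  rw [ae_iff] at h ⊢
  have h1 : volume (Real.exp '' {z : ℝ | ¬ P (Real.exp z)}) = 0 :=
    addHaar_image_eq_zero_of_differentiableOn_of_addHaar_eq_zero volume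
      Real.differentiable_exp.differentiableOn h
  refine measure_mono_null ?_ h1
  intro z hz
  simp only [Set.mem_ofPred_eq, Classical.not_imp] at hz
  refine ⟨Real.log z, ?_, Real.exp_log hz.1⟩
  simp only [Set.mem_ofPred_eq]
  rw [Real.exp_log hz.1]
  exact hz.2

/-- The metric finiteness law for Fermat numbers. -/
theorem result :
    (∀ a m : ℕ, Even a → 2 ≤ a → W a 1 m = a ^ (2 ^ m) + 1) ∧
    (∀ α : ℝ, 1 < α → ∀ u : ℝ,
      Tendsto (fun m : ℕ =>
        (volume {b : ℝ | b ∈ Set.Ioc u (u + 1) ∧ (W α (Real.exp b) m).Prime}).toReal *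
          (2 ^ m / m)) atTop
        (𝓝 (Real.exp Real.eulerMascheroniConstant * Real.log 2 / Real.log α))) ∧
    (∀ α₀ : ℝ, 1 < α₀ → ∀ L : ℝ, ∃ C : ℝ, 0 < C ∧ ∀ α : ℝ, α₀ ≤ α → ∀ u : ℝ, -L ≤ u →
      ∀ M : ℕ, 1 ≤ M →
      volume {b : ℝ | b ∈ Set.Ioc u (u + 1) ∧ ∃ m : ℕ, M ≤ m ∧ (W α (Real.exp b) m).Prime} ≤
        ENNReal.ofReal (C * (M / 2 ^ M))) ∧
    (∀ α : ℝ, 1 < α → ∀ᵐ β : ℝ, 0 < β → {m : ℕ | (W α β m).Prime}.Finite) :=
  ⟨fun _ m ha _ => W_even ha m, fun _ hα u => asymp hα u, union_bound,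
    fun _ hα => ae_exp1 (finite_log hα)⟩

end Pool.Agent.Results.MP_37e5fa_nt.MetricFiniteness
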