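import Mathlib
import Pool.Agent.H447R2.ML.Law

set_option autoImplicit false

/-!
# Metric finiteness for the Fermat numbers: almost every real base

For real `x > 1`, `β > 0` and `m ≥ 0` let `W x β m` be the `2 ^ m`-rough part (the product, with
multiplicity, of the prime factors larger than `2 ^ m`) of the smallest integer larger than
`β x ^ (2 ^ m)`.  For `x = 2`, `β = 1` this is the Fermat number `2 ^ (2 ^ m) + 1` itself, because
all of its prime factors exceed `2 ^ m`; more generally `W a 1 m = a ^ (2 ^ m) + 1` for all even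
`a ≥ 2`.  We prove that for every amplitude `β > 0`, in particular for `β = 1`, and almost every
real base `x > 1` only finitely many `W x β m` are prime, with the exact order of magnitude of the
exceptional probabilities, also in shrinking neighbourhoods of the base two.
-/

namespace Pool.Agent.Results.MP_37e5fa_nt.RealBaseFermat

open Filter Topology MeasureTheory

open Pool.Agent.H447R2.ML (Good LL gg fl)

/-- The product, with multiplicity, of the prime factors of `k` that are larger than `n`. -/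
def roughPart (n k : ℕ) : ℕ := (k.primeFactorsList.filter (fun r => n < r)).prod

/-- The `2 ^ m`-rough part of the smallest integer that is larger than `β * x ^ (2 ^ m)`. -/
noncomputable def W (x β : ℝ) (m : ℕ) : ℕ := roughPart (2 ^ m) (⌊β * x ^ (2 ^ m)⌋₊ + 1)

lemma roughPart_eq : roughPart = Pool.Agent.H305R2.roughPart := rfl

lemma W_even {a : ℕ} (ha : Even a) (m : ℕ) :
    W a 1 m = a ^ (2 ^ m) + 1 := by
  have h1 : ⌊(1 : ℝ) * (a : ℝ) ^ (2 ^ m)⌋₊ = a ^ (2 ^ m) := by
    rw [one_mul]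
    exact_mod_cast Nat.floor_natCast (R := ℝ) (a ^ (2 ^ m))
  unfold W
  rw [h1, roughPart_eq]
  refine Pool.Agent.H447R2.ML.roughPart_eq_self (Nat.succ_ne_zero _) fun q hq hdvd => ?_
  have hodd : Odd (a ^ (2 ^ m) + 1) := by
    refine Even.add_one ?_
    exact (Nat.even_pow.2 ⟨ha, (Nat.two_pow_pos m).ne'⟩)
  have hq2 : q ≠ 2 := by
    rintro rfl
    exact (Nat.not_even_iff_odd.2 hodd) (even_iff_two_dvd.2 hdvd)
  obtain ⟨k, hk⟩ := Nat.pow_pow_add_primeFactors_one_lt hq hq2 hdvd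
  have hk0 : k ≠ 0 := by
    rintro rfl
    rw [zero_mul, zero_add] at hk
    exact hq.one_lt.ne' hk
  have h3 : 2 ^ m < k * 2 ^ (m + 1) + 1 := by
    have : 2 ^ m ≤ k * 2 ^ (m + 1) := by
      rw [pow_succ]
      nlinarith [Nat.two_pow_pos m, Nat.pos_of_ne_zero hk0]
    omega
  omega

/-- the constant perturbation -/
def one' : ℕ → ℝ := fun _ => 1

lemma good : Good (fl one') 0 := by
  refine Pool.Agent.H447R2.ML.good_fl (C := 1) le_rfl one_pos fun p => ?_
  simp [one']

lemma log_nat_tendsto : Tendsto (fun p : ℕ => Real.log (p : ℝ)) atTop atTop :=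
  Real.tendsto_log_atTop.comp tendsto_natCast_atTop_atTop

lemma scale {g : ℝ → ℝ} {u v : ℝ} (huv : u ≤ v) {p : ℕ} (hp : 0 < p) (b : ℝ) :
    ∫ τ in Set.Ioc u v, g (p * τ + b) = (∫ y in Set.Ioc (p * u + b) (p * v + b), g y) / p := by
  have hp0 : (0 : ℝ) < p := by exact_mod_cast hp
  have h1 : (p : ℝ) * u + b ≤ p * v + b := by
    have := mul_le_mul_of_nonneg_left huv hp0.le
    linarith
  rw [← intervalIntegral.integral_of_le huv, ← intervalIntegral.integral_of_le h1,
    intervalIntegral.integral_comp_mul_add (fun y => g y) hp0.ne' b, smul_eq_mul]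
  field_simp

/-- The mean law over windows of the logarithmic base. -/
lemma mean_gen {f : ℕ → ℝ → ℝ} (hf : Good f 0) {s t : ℝ} (hs : 0 < s) (hst : s ≤ t)
    {u v : ℕ → ℝ} (hu : Tendsto u atTop (𝓝 s)) (hv : Tendsto v atTop (𝓝 t))
    (huv : ∀ᶠ p in atTop, u p < v p)
    (hw : Tendsto (fun p : ℕ => (p : ℝ) * (v p - u p)) atTop atTop) (b : ℝ) :
    Tendsto (fun p : ℕ => (∫ τ in Set.Ioc (u p) (v p), f p (p * τ + b)) / (v p - u p) *
      (p / Real.log p)) atTop
      (𝓝 (∫ θ in Set.Ioc (0 : ℝ) 1, Real.exp Real.eulerMascheroniConstant /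
        (s + θ * (t - s)))) := by
  set G := Real.exp Real.eulerMascheroniConstant with hG
  obtain ⟨K, hK, hev⟩ := Pool.Agent.H447R2.ML.bounds hf (c := s / 4) (by linarith)
  have hlog1 : ∀ᶠ p : ℕ in atTop, 1 ≤ Real.log p := log_nat_tendsto.eventually_ge_atTop 1
  have hu2 : ∀ᶠ p in atTop, s / 2 < u p := hu.eventually_const_lt (by linarith)
  have hlarge : ∀ᶠ p : ℕ in atTop, (4 / s) * (1 + |b|) ≤ p :=
    tendsto_natCast_atTop_atTop.eventually_ge_atTop _
  -- for large `p` the windows lie in the range of the bounds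
  have hstart : ∀ᶠ p : ℕ in atTop, s / 4 * p + 1 ≤ p * u p + b := by
    filter_upwards [hu2, hlarge, eventually_gt_atTop 0] with p h1 h2 h3
    have h3' : (0 : ℝ) < p := by exact_mod_cast h3
    have h4 : (1 + |b|) ≤ s / 4 * p := by
      rw [div_mul_eq_mul_div, div_le_iff₀ hs] at h2
      linarith
    have h5 := neg_abs_le b
    nlinarith
  -- dominated convergence
  have hdom : Tendsto (fun p : ℕ => ∫ θ in Set.Ioc (0 : ℝ) 1,
      LL f p (p * (u p + θ * (v p - u p)) + b) * (p / Real.log p)) atTop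
      (𝓝 (∫ θ in Set.Ioc (0 : ℝ) 1, G / (s + θ * (t - s)))) := by
    refine tendsto_integral_filter_of_dominated_convergence (fun _ => K) ?_ ?_ ?_ ?_
    · exact Eventually.of_forall fun p =>
        (((Pool.Agent.H447R2.ML.LL_cont hf p).comp (by fun_prop)).mul
          continuous_const).aestronglyMeasurable
    · filter_upwards [hev, hlog1, eventually_gt_atTop 0, hstart, huv] with p hp hl hp0 hst' huv'
      have hp0' : (0 : ℝ) < p := by exact_mod_cast hp0
      refine ae_restrict_of_forall_mem measurableSet_Ioc fun θ hθ => ?_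
      have h0 : p * u p + b ≤ p * (u p + θ * (v p - u p)) + b := by
        have : 0 ≤ θ * (v p - u p) := mul_nonneg hθ.1.le (by linarith)
        nlinarith
      have h1 := hp.1 (p * (u p + θ * (v p - u p)) + b) (by linarith)
      have h2 := Pool.Agent.H447R2.ML.LL_nonneg hf p (p * (u p + θ * (v p - u p)) + b)
      have h3 : 0 ≤ (p : ℝ) / Real.log p := by positivity
      rw [Real.norm_eq_abs, abs_of_nonneg (mul_nonneg h2 h3)]
      calc LL f p (p * (u p + θ * (v p - u p)) + b) * (p / Real.log p) ≤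
          (K * (Real.log p / p)) * (p / Real.log p) := mul_le_mul_of_nonneg_right h1 h3
        _ = K := by field_simp
    · exact integrableOn_const (by simp)
    · refine ae_restrict_of_forall_mem measurableSet_Ioc fun θ hθ => ?_
      have ha0 : 0 < s + θ * (t - s) := by
        have : 0 ≤ θ * (t - s) := mul_nonneg hθ.1.le (by linarith)
        linarith
      refine hf.asymp _ ha0 (fun p : ℕ => p * (u p + θ * (v p - u p)) + b) ?_
      have h1 : Tendsto (fun p : ℕ => (u p + θ * (v p - u p)) + b / (p : ℝ)) atTop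
          (𝓝 ((s + θ * (t - s)) + 0)) :=
        (hu.add ((hv.sub hu).const_mul θ)).add (tendsto_const_div_atTop_nhds_zero_nat b)
      rw [add_zero] at h1
      refine h1.congr' ?_
      filter_upwards [eventually_gt_atTop 0] with p hp
      have hp0' : (0 : ℝ) < p := by exact_mod_cast hp
      field_simp
  -- error term
  have herr : Tendsto (fun p : ℕ => (∫ y in Set.Ioc (p * u p + b) (p * v p + b), gg f p y) /
      (p * (v p - u p)) * (p / Real.log p)) atTop (𝓝 0) := by
    have h0 : Tendsto (fun p : ℕ => K / ((p : ℝ) * (v p - u p))) atTop (𝓝 0) :=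
      hw.const_div_atTop K
    refine squeeze_zero_norm' ?_ h0
    filter_upwards [hev, hlog1, eventually_gt_atTop 0, hstart, huv] with p hp hl hp0 hst' huv'
    have hp0' : (0 : ℝ) < p := by exact_mod_cast hp0
    have hd : 0 < v p - u p := by linarith
    have hle : (p : ℝ) * u p + b ≤ p * v p + b := by nlinarith
    have h1 := hp.2.2.1 _ _ hst' hle
    have hl' : 0 < Real.log p := by linarith
    have hr : 0 ≤ (p : ℝ) / Real.log p := by positivity
    rw [Real.norm_eq_abs, abs_mul, abs_div, abs_of_nonneg hr,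
      abs_of_pos (show 0 < (p : ℝ) * (v p - u p) by positivity)]
    calc |∫ y in Set.Ioc (p * u p + b) (p * v p + b), gg f p y| / (p * (v p - u p)) *
          (p / Real.log p) ≤ (K * (Real.log p / p)) / (p * (v p - u p)) * (p / Real.log p) := by
          gcongr
      _ = K / (p * (v p - u p)) := by field_simp
  have hsum := hdom.add herr
  rw [add_zero] at hsum
  refine hsum.congr' ?_
  filter_upwards [hlog1, eventually_gt_atTop 0, huv] with p hl hp0 huv'
  have hp0' : (0 : ℝ) < p := by exact_mod_cast hp0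
  have hd : 0 < v p - u p := by linarith
  have e1 : ∫ y in Set.Ioc (p * u p + b) (p * v p + b), gg f p y =
      (∫ y in Set.Ioc (p * u p + b) (p * v p + b), f p y) -
      ∫ y in Set.Ioc (p * u p + b) (p * v p + b), LL f p y :=
    integral_sub (Pool.Agent.H447R2.ML.integrableOn_ff hf p _ _)
      (Pool.Agent.H447R2.ML.integrableOn_LL hf p _ _)
  have e2 : ∫ y in Set.Ioc (p * u p + b) (p * v p + b), LL f p y =
      (p * (v p - u p)) * ∫ θ in Set.Ioc (0 : ℝ) 1, LL f p (p * (u p + θ * (v p - u p)) + b) := by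
    have hle : (p : ℝ) * u p + b ≤ p * v p + b := by nlinarith
    have hc : (p : ℝ) * (v p - u p) ≠ 0 := by positivity
    have h3 := intervalIntegral.integral_comp_mul_add (a := 0) (b := 1) (fun y => LL f p y) hc
      (p * u p + b)
    have h4 : (fun θ : ℝ => LL f p (p * (u p + θ * (v p - u p)) + b)) =
        fun θ : ℝ => LL f p (p * (v p - u p) * θ + (p * u p + b)) := by
      funext θ
      congr 1
      ring
    rw [h4, ← intervalIntegral.integral_of_le (zero_le_one), h3,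
      ← intervalIntegral.integral_of_le hle, smul_eq_mul]
    have e5 : (p : ℝ) * (v p - u p) * 0 + (p * u p + b) = p * u p + b := by ring
    have e6 : (p : ℝ) * (v p - u p) * 1 + (p * u p + b) = p * v p + b := by ring
    rw [e5, e6]
    field_simp
  rw [e1, e2, scale huv'.le hp0, integral_mul_const]
  have hl' : Real.log p ≠ 0 := by
    have : 0 < Real.log p := by linarith
    exact this.ne'
  field_simp
  ring_nf

/-- the set of logarithmic bases in `(u, v]` with a prime `m`-th term -/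
def A (β u v : ℝ) (m : ℕ) : Set ℝ := {τ | τ ∈ Set.Ioc u v ∧ (W (Real.exp τ) β m).Prime}

lemma prime_iff {β : ℝ} (hβ : 0 < β) (τ : ℝ) (m : ℕ) :
    (W (Real.exp τ) β m).Prime ↔
      fl one' (2 ^ m) ((2 ^ m : ℕ) * τ + Real.log β) = 1 := by
  have e : Real.exp ((2 ^ m : ℕ) * τ + Real.log β) = β * Real.exp τ ^ (2 ^ m) := by
    rw [Real.exp_add, Real.exp_nat_mul, Real.exp_log hβ, mul_comm]
  have e2 : ⌊β * Real.exp τ ^ (2 ^ m) + 1⌋₊ = ⌊β * Real.exp τ ^ (2 ^ m)⌋₊ + 1 :=
    Nat.floor_add_one (by positivity)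
  unfold fl W
  rw [e, one', e2, roughPart_eq]
  constructor
  · intro h
    rw [if_pos h]
  · intro h
    by_contra hc
    rw [if_neg hc] at h
    exact zero_ne_one h

/-- the exact measure of `A` as an integral -/
lemma volume_A {β : ℝ} (hβ : 0 < β) (u v : ℝ) (m : ℕ) :
    volume (A β u v m) = ENNReal.ofReal (∫ τ in Set.Ioc u v,
      fl one' (2 ^ m) ((2 ^ m : ℕ) * τ + Real.log β)) := by
  set f : ℝ → ℝ := fun τ => fl one' (2 ^ m) ((2 ^ m : ℕ) * τ + Real.log β) with hf
  have hmeas : Measurable f :=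
    (Pool.Agent.H447R2.ML.measurable_fl one' (2 ^ m)).comp
      ((measurable_const_mul _).add_const _)
  have hint : IntegrableOn f (Set.Ioc u v) := by
    refine Measure.integrableOn_of_bounded (M := 1) (by simp) hmeas.aestronglyMeasurable ?_
    exact Eventually.of_forall fun t => by
      rw [Real.norm_eq_abs, abs_of_nonneg (Pool.Agent.H447R2.ML.fl_nonneg _ _ _)]
      exact Pool.Agent.H447R2.ML.fl_le_one _ _ _
  have hA : A β u v m = {τ | f τ = 1} ∩ Set.Ioc u v := by
    ext τ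
    simp only [A, Set.mem_ofPred_eq, Set.mem_inter_iff]
    rw [prime_iff hβ, and_comm]
  rw [ofReal_integral_eq_lintegral_ofReal hint
    (Eventually.of_forall fun b => Pool.Agent.H447R2.ML.fl_nonneg _ _ _), hA]
  have hms : MeasurableSet {τ | f τ = 1} := hmeas (measurableSet_singleton 1)
  rw [← Measure.restrict_apply hms, ← lintegral_indicator_one hms]
  refine lintegral_congr fun b => ?_
  by_cases hb : b ∈ {τ | f τ = 1}
  · rw [Set.indicator_of_mem hb]
    have : f b = 1 := hb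
    rw [this]
    simp
  · rw [Set.indicator_of_notMem hb]
    have h2 : f b ≠ 1 := hb
    have h3 : f b = 0 := by
      rw [hf] at h2 ⊢
      simp only [fl] at h2 ⊢
      split_ifs at h2 ⊢ with h
      · exact absurd rfl h2
      · rfl
    rw [h3]
    simp

lemma tendsto_two_pow : Tendsto (fun m : ℕ => 2 ^ m) atTop atTop :=
  tendsto_pow_atTop_atTop_of_one_lt one_lt_two

lemma log_two_pow (m : ℕ) : Real.log ((2 ^ m : ℕ) : ℝ) = m * Real.log 2 := by
  rw [Nat.cast_pow, Real.log_pow]; norm_num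

/-- the mean law for the primes among the `W`, over arbitrary windows -/
lemma asymp_gen {β : ℝ} (hβ : 0 < β) {s t : ℝ} (hs : 0 < s) (hst : s ≤ t)
    {u v : ℕ → ℝ} (hu : Tendsto u atTop (𝓝 s)) (hv : Tendsto v atTop (𝓝 t))
    (huv : ∀ m, u m < v m)
    (hw : Tendsto (fun m : ℕ => (2 : ℝ) ^ m * (v m - u m)) atTop atTop) :
    Tendsto (fun m : ℕ => (volume (A β (u m) (v m) m)).toReal / (v m - u m) * (2 ^ m / m)) atTop
      (𝓝 ((∫ θ in Set.Ioc (0 : ℝ) 1, Real.exp Real.eulerMascheroniConstant /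
        (s + θ * (t - s))) * Real.log 2)) := by
  have hl2 : 0 < Real.log 2 := Real.log_pos one_lt_two
  have hlogt : Tendsto (Nat.log 2) atTop atTop := by
    refine tendsto_atTop_atTop.2 fun n => ⟨2 ^ n, fun k hk => ?_⟩
    exact (Nat.le_log_iff_pow_le one_lt_two (by
      have := Nat.two_pow_pos n
      omega)).2 hk
  have h1 := mean_gen good hs hst (u := fun p => u (Nat.log 2 p)) (v := fun p => v (Nat.log 2 p))
    (hu.comp hlogt) (hv.comp hlogt) (Eventually.of_forall fun p => huv _) (by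
      refine tendsto_atTop_mono' atTop ?_ (hw.comp hlogt)
      filter_upwards [eventually_gt_atTop 0] with p hp
      simp only [Function.comp]
      refine mul_le_mul_of_nonneg_right ?_ (by linarith [huv (Nat.log 2 p)])
      exact_mod_cast Nat.pow_log_le_self 2 hp.ne') (Real.log β)
  have h2 := (h1.comp tendsto_two_pow).mul_const (Real.log 2)
  refine h2.congr' ?_
  filter_upwards [eventually_gt_atTop 0] with m hm
  have hm' : (m : ℝ) ≠ 0 := by exact_mod_cast hm.ne'
  have e0 : Nat.log 2 (2 ^ m) = m := Nat.log_pow one_lt_two m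
  have hd : 0 < v m - u m := by linarith [huv m]
  simp only [Function.comp]
  rw [e0, log_two_pow, volume_A hβ, ENNReal.toReal_ofReal
    (setIntegral_nonneg measurableSet_Ioc fun t _ => Pool.Agent.H447R2.ML.fl_nonneg _ _ _)]
  have e5 : ((2 ^ m : ℕ) : ℝ) = 2 ^ m := by push_cast; rfl
  rw [e5]
  field_simp

/-- fixed windows -/
lemma asymp_fixed {β : ℝ} (hβ : 0 < β) {s t : ℝ} (hs : 0 < s) (hst : s < t) :
    Tendsto (fun m : ℕ => (volume (A β s t m)).toReal * (2 ^ m / m)) atTop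
      (𝓝 (Real.exp Real.eulerMascheroniConstant * Real.log 2 * Real.log (t / s))) := by
  have hd : 0 < t - s := by linarith
  have h1 := asymp_gen hβ hs hst.le (u := fun _ => s) (v := fun _ => t) tendsto_const_nhds
    tendsto_const_nhds (fun _ => hst)
    ((tendsto_pow_atTop_atTop_of_one_lt (one_lt_two)).atTop_mul_const hd)
  have h2 := h1.const_mul (t - s)
  have e : (t - s) * ((∫ θ in Set.Ioc (0 : ℝ) 1, Real.exp Real.eulerMascheroniConstant /
        (s + θ * (t - s))) * Real.log 2) =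
      Real.exp Real.eulerMascheroniConstant * Real.log 2 * Real.log (t / s) := by
    have h3 := intervalIntegral.integral_comp_mul_add (a := 0) (b := 1)
      (fun y => Real.exp Real.eulerMascheroniConstant / y) hd.ne' s
    have h4 : (fun θ : ℝ => Real.exp Real.eulerMascheroniConstant / (s + θ * (t - s))) =
        fun θ : ℝ => Real.exp Real.eulerMascheroniConstant / ((t - s) * θ + s) := by
      funext θ
      congr 1
      ring
    rw [h4, ← intervalIntegral.integral_of_le (zero_le_one), h3, smul_eq_mul]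
    have e5 : (t - s) * 0 + s = s := by ring
    have e6 : (t - s) * 1 + s = t := by ring
    rw [e5, e6]
    simp only [div_eq_mul_inv]
    rw [intervalIntegral.integral_const_mul, integral_inv_of_pos hs (hs.trans hst)]
    field_simp
  rw [e] at h2
  refine h2.congr fun m => ?_
  field_simp

/-- shrinking windows -/
lemma asymp_shrink {β : ℝ} (hβ : 0 < β) {c : ℝ} (hc : 0 < c)
    {u v : ℕ → ℝ} (hu : Tendsto u atTop (𝓝 c)) (hv : Tendsto v atTop (𝓝 c))
    (huv : ∀ m, u m < v m)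
    (hw : Tendsto (fun m : ℕ => (2 : ℝ) ^ m * (v m - u m)) atTop atTop) :
    Tendsto (fun m : ℕ => (volume (A β (u m) (v m) m)).toReal / (v m - u m) * (2 ^ m / m)) atTop
      (𝓝 (Real.exp Real.eulerMascheroniConstant * Real.log 2 / c)) := by
  have h1 := asymp_gen hβ hc le_rfl hu hv huv hw
  have e : (∫ θ in Set.Ioc (0 : ℝ) 1, Real.exp Real.eulerMascheroniConstant /
        (c + θ * (c - c))) * Real.log 2 =
      Real.exp Real.eulerMascheroniConstant * Real.log 2 / c := by
    simp only [sub_self, mul_zero, add_zero]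
    rw [setIntegral_const, Real.volume_real_Ioc_of_le zero_le_one]
    simp only [sub_zero, one_smul]
    ring
  rw [e] at h1
  exact h1

/-- uniform bound for one term -/
lemma one_term (s : ℝ) (hs : 0 < s) (β₀ : ℝ) (hβ₀ : 0 < β₀) :
    ∃ C : ℝ, 0 < C ∧ ∀ β : ℝ, β₀ ≤ β → ∀ u v : ℝ, s ≤ u → u ≤ v → ∀ m : ℕ, 1 ≤ m →
      volume (A β u v m) ≤ ENNReal.ofReal (C * ((v - u) + 1 / 4 ^ m) * (m / 2 ^ m)) := by
  obtain ⟨K, hK, hev⟩ := Pool.Agent.H447R2.ML.bounds good (c := s / 2) (by linarith)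
  have hgrow : Tendsto (fun p : ℕ => s / 2 * (p : ℝ)) atTop atTop :=
    tendsto_natCast_atTop_atTop.const_mul_atTop (by linarith)
  have hev2 := hev.and (hgrow.eventually_ge_atTop (1 - Real.log β₀))
  have hev3 := tendsto_two_pow.eventually hev2
  obtain ⟨m0, hm0⟩ := eventually_atTop.1 hev3
  refine ⟨K + 2 ^ m0, by positivity, fun β hβ u v hu huv m hm => ?_⟩
  have hβ1 : 0 < β := by linarith
  have hm' : (1 : ℝ) ≤ m := by exact_mod_cast hm
  have h2m : (0 : ℝ) < 2 ^ m := by positivity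
  have h4m : (0 : ℝ) < 1 / 4 ^ m := by positivity
  have hd : 0 ≤ v - u := by linarith
  rcases lt_or_ge m m0 with hlt | hge
  · have h1 : volume (A β u v m) ≤ volume (Set.Ioc u v) :=
      measure_mono fun b hb => hb.1
    refine h1.trans ?_
    rw [Real.volume_Ioc]
    refine ENNReal.ofReal_le_ofReal ?_
    have h3 : (2 : ℝ) ^ m ≤ 2 ^ m0 := pow_le_pow_right₀ (by norm_num) hlt.le
    have h4 : (1 : ℝ) ≤ 2 ^ m0 * (m / 2 ^ m) := by
      rw [← mul_div_assoc, le_div_iff₀ h2m]
      nlinarith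
    have h5 : 0 ≤ K * ((v - u) + 1 / 4 ^ m) * (m / 2 ^ m : ℝ) := by positivity
    calc v - u = (v - u) * 1 := (mul_one _).symm
      _ ≤ ((v - u) + 1 / 4 ^ m) * (2 ^ m0 * (m / 2 ^ m)) := by
          refine mul_le_mul (by linarith) h4 zero_le_one (by linarith)
      _ ≤ (K + 2 ^ m0) * ((v - u) + 1 / 4 ^ m) * (m / 2 ^ m) := by nlinarith
  · obtain ⟨hb, hg⟩ := hm0 m hge
    rw [volume_A hβ1]
    refine ENNReal.ofReal_le_ofReal ?_
    have e5 : ((2 ^ m : ℕ) : ℝ) = 2 ^ m := by push_cast; rfl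
    have hlogle : Real.log β₀ ≤ Real.log β := Real.log_le_log hβ₀ hβ
    rw [scale huv (Nat.two_pow_pos m)]
    have h6 : s / 2 * ((2 ^ m : ℕ) : ℝ) + 1 ≤ ((2 ^ m : ℕ) : ℝ) * u + Real.log β := by
      rw [e5] at hg ⊢
      nlinarith
    have h6' : ((2 ^ m : ℕ) : ℝ) * u + Real.log β ≤ ((2 ^ m : ℕ) : ℝ) * v + Real.log β := by
      rw [e5]
      nlinarith
    have h7 := hb.2.1 _ _ h6 h6'
    rw [log_two_pow, e5] at h7
    rw [e5]
    have h10 : Real.log 2 ≤ 1 := by
      have := Real.log_two_lt_d9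
      linarith
    have h12 : 0 ≤ Real.log 2 := (Real.log_pos one_lt_two).le
    have e44 : (4 : ℝ) ^ m = 2 ^ m * 2 ^ m := by
      rw [← mul_pow]; norm_num
    calc (∫ y in Set.Ioc (2 ^ m * u + Real.log β) (2 ^ m * v + Real.log β),
            fl one' (2 ^ m) y) / 2 ^ m ≤
          (K * ((2 ^ m * v + Real.log β - (2 ^ m * u + Real.log β)) + 1 / 2 ^ m) *
            (m * Real.log 2 / 2 ^ m)) / 2 ^ m := by
          gcongr
      _ = K * ((v - u) + 1 / 4 ^ m) * (m / 2 ^ m) * Real.log 2 := by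
          rw [e44]
          field_simp
          ring
      _ ≤ K * ((v - u) + 1 / 4 ^ m) * (m / 2 ^ m) * 1 := by
          refine mul_le_mul_of_nonneg_left h10 (by positivity)
      _ ≤ (K + 2 ^ m0) * ((v - u) + 1 / 4 ^ m) * (m / 2 ^ m) := by
          have : 0 ≤ (2 : ℝ) ^ m0 * ((v - u) + 1 / 4 ^ m) * (m / 2 ^ m) := by positivity
          nlinarith

/-- the tail sums of `m / 2 ^ m` -/
lemma tail_sum (M : ℕ) :
    HasSum (fun k : ℕ => ((M + k : ℕ) : ℝ) / 2 ^ (M + k)) ((2 * M + 2) / 2 ^ M) := by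
  have h1 : HasSum (fun k : ℕ => (1 / 2 : ℝ) ^ k) 2 := by
    have := hasSum_geometric_of_lt_one (r := (1 / 2 : ℝ)) (by norm_num) (by norm_num)
    norm_num at this
    simpa using this
  have h2 : HasSum (fun k : ℕ => (k : ℝ) * (1 / 2 : ℝ) ^ k) 2 := by
    have := hasSum_coe_mul_geometric_of_norm_lt_one (𝕜 := ℝ) (r := 1 / 2) (by norm_num)
    norm_num at this
    simpa using this
  have h3 := ((h1.mul_left (M : ℝ)).add h2).mul_left ((1 / 2 : ℝ) ^ M)
  have e : (1 / 2 : ℝ) ^ M * (M * 2 + 2) = (2 * M + 2) / 2 ^ M := by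
    rw [div_pow, one_pow]; ring
  rw [e] at h3
  refine h3.congr_fun ?_
  intro k
  rw [pow_add, div_pow, div_pow, one_pow, one_pow]
  push_cast
  field_simp

theorem union_bound (s : ℝ) (hs : 0 < s) (β₀ : ℝ) (hβ₀ : 0 < β₀) :
    ∃ C : ℝ, 0 < C ∧ ∀ β : ℝ, β₀ ≤ β → ∀ u v : ℝ, s ≤ u → u ≤ v → ∀ M : ℕ, 1 ≤ M →
      volume {τ : ℝ | τ ∈ Set.Ioc u v ∧ ∃ m : ℕ, M ≤ m ∧ (W (Real.exp τ) β m).Prime} ≤
        ENNReal.ofReal (C * ((v - u) + 1 / 4 ^ M) * (M / 2 ^ M)) := by
  obtain ⟨C, hC, h⟩ := one_term s hs β₀ hβ₀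
  refine ⟨4 * C, by positivity, fun β hβ u v hu huv M hM => ?_⟩
  have hM' : (1 : ℝ) ≤ M := by exact_mod_cast hM
  have hd : 0 ≤ v - u := by linarith
  have hsub : {τ : ℝ | τ ∈ Set.Ioc u v ∧ ∃ m : ℕ, M ≤ m ∧ (W (Real.exp τ) β m).Prime} ⊆
      ⋃ k : ℕ, A β u v (M + k) := by
    rintro b ⟨hb, m, hm, hp⟩
    refine Set.mem_iUnion.2 ⟨m - M, hb, ?_⟩
    rwa [Nat.add_sub_cancel' hm]
  refine (measure_mono hsub).trans ((measure_iUnion_le _).trans ?_)
  set D := C * ((v - u) + 1 / 4 ^ M) with hD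
  have hD0 : 0 ≤ D := by positivity
  have hs := (tail_sum M).mul_left D
  calc ∑' k : ℕ, volume (A β u v (M + k)) ≤
        ∑' k : ℕ, ENNReal.ofReal (D * (((M + k : ℕ) : ℝ) / 2 ^ (M + k))) := by
        refine ENNReal.tsum_le_tsum fun k => (h β hβ u v hu huv (M + k) (by omega)).trans ?_
        refine ENNReal.ofReal_le_ofReal ?_
        refine mul_le_mul_of_nonneg_right ?_ (by positivity)
        refine mul_le_mul_of_nonneg_left ?_ hC.le
        have : (1 : ℝ) / 4 ^ (M + k) ≤ 1 / 4 ^ M := by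
          refine one_div_le_one_div_of_le (by positivity) ?_
          exact pow_le_pow_right₀ (by norm_num) (by omega)
        linarith
    _ = ENNReal.ofReal (∑' k : ℕ, D * (((M + k : ℕ) : ℝ) / 2 ^ (M + k))) := by
        rw [ENNReal.ofReal_tsum_of_nonneg (fun k => by positivity) hs.summable]
    _ = ENNReal.ofReal (D * ((2 * M + 2) / 2 ^ M)) := by rw [hs.tsum_eq]
    _ ≤ ENNReal.ofReal (4 * C * ((v - u) + 1 / 4 ^ M) * (M / 2 ^ M)) := by
        refine ENNReal.ofReal_le_ofReal ?_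
        have h2 : (0 : ℝ) < 2 ^ M := by positivity
        have : (2 * (M : ℝ) + 2) / 2 ^ M ≤ 4 * (M / 2 ^ M) := by
          rw [← mul_div_assoc]
          gcongr
          linarith
        calc D * ((2 * M + 2) / 2 ^ M) ≤ D * (4 * (M / 2 ^ M)) :=
              mul_le_mul_of_nonneg_left this hD0
          _ = 4 * C * ((v - u) + 1 / 4 ^ M) * (M / 2 ^ M) := by rw [hD]; ring

lemma tendsto_tail (C : ℝ) : Tendsto (fun M : ℕ => ENNReal.ofReal (C * (M / 2 ^ M))) atTop (𝓝 0) := by
  have h1 : Tendsto (fun M : ℕ => (M : ℝ) / 2 ^ M) atTop (𝓝 0) := by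
    have := tendsto_pow_const_div_const_pow_of_one_lt 1 (r := (2 : ℝ)) (by norm_num)
    simpa using this
  have h2 := (h1.const_mul C)
  rw [mul_zero] at h2
  have h3 := (ENNReal.continuous_ofReal.tendsto 0).comp h2
  rw [ENNReal.ofReal_zero] at h3
  exact h3

theorem finite_log {β : ℝ} (hβ : 0 < β) :
    ∀ᵐ τ : ℝ, 0 < τ → {m : ℕ | (W (Real.exp τ) β m).Prime}.Finite := by
  have main : ∀ n : ℕ, volume {τ : ℝ | τ ∈ Set.Ioc (1 / ((n : ℝ) + 1)) (n + 1) ∧
      ¬ {m : ℕ | (W (Real.exp τ) β m).Prime}.Finite} = 0 := by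
    intro n
    have hn : (0 : ℝ) ≤ n := Nat.cast_nonneg n
    have hle0 : 1 / ((n : ℝ) + 1) ≤ n + 1 := by
      rw [div_le_iff₀ (by positivity)]
      nlinarith
    obtain ⟨C, hC, h⟩ := union_bound (1 / ((n : ℝ) + 1)) (by positivity) β hβ
    set D := C * ((n + 1 - 1 / ((n : ℝ) + 1)) + 1) with hD
    have hle : ∀ M : ℕ, 1 ≤ M → volume {τ : ℝ | τ ∈ Set.Ioc (1 / ((n : ℝ) + 1)) (n + 1) ∧
      ¬ {m : ℕ | (W (Real.exp τ) β m).Prime}.Finite} ≤ ENNReal.ofReal (D * (M / 2 ^ M)) := by
      intro M hM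
      refine (measure_mono ?_).trans ((h β le_rfl (1 / ((n : ℝ) + 1)) (n + 1) le_rfl hle0 M
        hM).trans ?_)
      · rintro b ⟨hb, hinf⟩
        refine ⟨hb, ?_⟩
        by_contra hno
        push Not at hno
        exact hinf ((Set.finite_lt_nat M).subset fun m hm => by
          by_contra hlt
          exact hno m (by simpa using hlt) hm)
      · refine ENNReal.ofReal_le_ofReal ?_
        refine mul_le_mul_of_nonneg_right ?_ (by positivity)
        refine mul_le_mul_of_nonneg_left ?_ hC.le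
        have : (1 : ℝ) / 4 ^ M ≤ 1 := by
          rw [div_le_one (by positivity)]
          exact one_le_pow₀ (by norm_num)
        linarith
    have h0 : volume {τ : ℝ | τ ∈ Set.Ioc (1 / ((n : ℝ) + 1)) (n + 1) ∧
      ¬ {m : ℕ | (W (Real.exp τ) β m).Prime}.Finite} ≤ 0 :=
      ge_of_tendsto (tendsto_tail D) (eventually_atTop.2 ⟨1, fun M hM => hle M hM⟩)
    exact le_antisymm h0 bot_le
  rw [ae_iff]
  refine measure_mono_null ?_ ((measure_iUnion_null_iff).2 main)
  intro b hb
  simp only [Set.mem_ofPred_eq, Classical.not_imp] at hb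
  obtain ⟨n1, hn1⟩ := exists_nat_gt b
  obtain ⟨n2, hn2⟩ := exists_nat_gt (1 / b)
  refine Set.mem_iUnion.2 ⟨max n1 n2, ⟨?_, ?_⟩, hb.2⟩
  · have h1 : (n2 : ℝ) ≤ (max n1 n2 : ℕ) := by exact_mod_cast le_max_right n1 n2
    have h2 : 1 / b < (max n1 n2 : ℕ) + 1 := by linarith
    exact (one_div_lt hb.1 (by positivity)).1 h2
  · have h1 : (n1 : ℝ) ≤ (max n1 n2 : ℕ) := by exact_mod_cast le_max_left n1 n2
    linarith

lemma ae_exp1 {P : ℝ → Prop} (h : ∀ᵐ z : ℝ, 0 < z → P (Real.exp z)) :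
    ∀ᵐ z : ℝ, 1 < z → P z := by
  rw [ae_iff] at h ⊢
  have h1 : volume (Real.exp '' {z : ℝ | ¬ (0 < z → P (Real.exp z))}) = 0 :=
    addHaar_image_eq_zero_of_differentiableOn_of_addHaar_eq_zero volume
      Real.differentiable_exp.differentiableOn h
  refine measure_mono_null ?_ h1
  intro z hz
  simp only [Set.mem_ofPred_eq, Classical.not_imp] at hz
  have hz0 : 0 < z := by linarith [hz.1]
  refine ⟨Real.log z, ?_, Real.exp_log hz0⟩
  simp only [Set.mem_ofPred_eq, Classical.not_imp]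
  rw [Real.exp_log hz0]
  exact ⟨Real.log_pos hz.1, hz.2⟩

/-- Metric finiteness of Fermat primes over almost every real base. -/
theorem result :
    (∀ a m : ℕ, Even a → 2 ≤ a → W a 1 m = a ^ (2 ^ m) + 1) ∧
    (∀ β : ℝ, 0 < β → ∀ s t : ℝ, 0 < s → s < t →
      Tendsto (fun m : ℕ =>
        (volume {τ : ℝ | τ ∈ Set.Ioc s t ∧ (W (Real.exp τ) β m).Prime}).toReal * (2 ^ m / m))
        atTop (𝓝 (Real.exp Real.eulerMascheroniConstant * Real.log 2 * Real.log (t / s)))) ∧
    (∀ β : ℝ, 0 < β → ∀ c : ℝ, 0 < c → ∀ u v : ℕ → ℝ, Tendsto u atTop (𝓝 c) →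
      Tendsto v atTop (𝓝 c) → (∀ m, u m < v m) →
      Tendsto (fun m : ℕ => (2 : ℝ) ^ m * (v m - u m)) atTop atTop →
      Tendsto (fun m : ℕ =>
        (volume {τ : ℝ | τ ∈ Set.Ioc (u m) (v m) ∧ (W (Real.exp τ) β m).Prime}).toReal /
          (v m - u m) * (2 ^ m / m))
        atTop (𝓝 (Real.exp Real.eulerMascheroniConstant * Real.log 2 / c))) ∧
    (∀ s : ℝ, 0 < s → ∀ β₀ : ℝ, 0 < β₀ → ∃ C : ℝ, 0 < C ∧ ∀ β : ℝ, β₀ ≤ β →
      ∀ u v : ℝ, s ≤ u → u ≤ v → ∀ M : ℕ, 1 ≤ M →
      volume {τ : ℝ | τ ∈ Set.Ioc u v ∧ ∃ m : ℕ, M ≤ m ∧ (W (Real.exp τ) β m).Prime} ≤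
        ENNReal.ofReal (C * ((v - u) + 1 / 4 ^ M) * (M / 2 ^ M))) ∧
    (∀ β : ℝ, 0 < β → ∀ᵐ x : ℝ, 1 < x → {m : ℕ | (W x β m).Prime}.Finite) :=
  ⟨fun _ m ha _ => W_even ha m, fun _ hβ _ _ hs hst => asymp_fixed hβ hs hst,
    fun _ hβ _ hc _ _ hu hv huv hw => asymp_shrink hβ hc hu hv huv hw, union_bound,
    fun _ hβ => ae_exp1 (finite_log hβ)⟩

end Pool.Agent.Results.MP_37e5fa_nt.RealBaseFermat
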